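import Pool.Agent.Helper84.TR.Emb

/-! Proper trees and finite products of proper trees. -/

namespace Pool.Agent.Helper84.TR

open Set ENNReal Pool.Agent.Helper85.TS

/-- The host space for `n` trees. -/
abbrev HN (n : ℕ) : Type := lp (fun _ : ℤ => PiLp 1 (fun _ : Fin n => ET)) 2 × ℝ

/-- The host space. -/
abbrev WT : Type := lp (fun n : ℕ => HN n) 2

section

variable {n : ℕ} {X : Type} [NormedAddCommGroup X] [NormedSpace ℝ X]

/-- The coordinate of a finite sum. -/
noncomputable def pj (i : Fin n) : PiLp 1 (fun _ : Fin n => X) →L[ℝ] X :=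
  (ContinuousLinearMap.proj i).comp
    (PiLp.continuousLinearEquiv 1 ℝ (fun _ : Fin n => X)).toContinuousLinearMap

/-- The inclusion in a finite sum. -/
noncomputable def ij (i : Fin n) : X →L[ℝ] PiLp 1 (fun _ : Fin n => X) :=
  (PiLp.continuousLinearEquiv 1 ℝ (fun _ : Fin n => X)).symm.toContinuousLinearMap.comp
    (ContinuousLinearMap.single ℝ (fun _ : Fin n => X) i)

theorem sum_ij (z : PiLp 1 (fun _ : Fin n => X)) : ∑ i, ij i (pj i z) = z := by
  classical
  have h : ∀ i, ij i (pj i z) =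
      (PiLp.continuousLinearEquiv 1 ℝ (fun _ : Fin n => X)).symm (Pi.single i (z i)) :=
    fun i => rfl
  simp only [h]
  rw [← map_sum, Finset.univ_sum_single]
  rfl

theorem rfx_pi (h : Rfx X) : Rfx (PiLp 1 (fun _ : Fin n => X)) := by
  classical
  intro Φ
  choose x hx using fun i : Fin n => h (Φ.comp ((ContinuousLinearMap.compL ℝ
    (PiLp 1 (fun _ : Fin n => X)) X ℝ).flip (pj i)))
  have hx' : ∀ i (g : StrongDual ℝ X), Φ (g.comp (pj i)) = g (x i) := by
    intro i g
    have := DFunLike.congr_fun (hx i) g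
    simp only [NormedSpace.dual_def, ContinuousLinearMap.comp_apply,
      ContinuousLinearMap.flip_apply, ContinuousLinearMap.compL_apply] at this
    exact this.symm
  refine ⟨∑ i, ij i (x i), ?_⟩
  ext f
  have h2 : f = ∑ i, (f.comp (ij i)).comp (pj i) := by
    refine ContinuousLinearMap.ext fun z => ?_
    rw [_root_.sum_apply]
    conv_lhs => rw [← sum_ij z, map_sum]
    rfl
  rw [NormedSpace.dual_def, map_sum]
  conv_rhs => rw [h2, map_sum]
  refine Finset.sum_congr rfl fun i _ => ?_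
  rw [hx']
  rfl

theorem sep_pi [TopologicalSpace.SeparableSpace X] :
    TopologicalSpace.SeparableSpace (PiLp 1 (fun _ : Fin n => X)) :=
  ((PiLp.continuousLinearEquiv 1 ℝ (fun _ : Fin n => X)).symm.surjective.denseRange).separableSpace
    (PiLp.continuousLinearEquiv 1 ℝ (fun _ : Fin n => X)).symm.continuous

end

theorem rfx_ET : Rfx ET :=
  rfx_lp two_conj (by norm_num) fun _ => rfx_lp two_conj (by norm_num) fun _ => rfx_fin _

theorem rfx_WT : Rfx WT := rfx_lp two_conj (by norm_num) fun _ =>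
  rfx_prod (rfx_lp two_conj (by norm_num) fun _ => rfx_pi rfx_ET) (rfx_fin ℝ)

theorem sep_ET : TopologicalSpace.SeparableSpace ET := by
  have h0 : ∀ N : ℕ, TopologicalSpace.SeparableSpace (PiLp 1 (fun _ : Fin N => ℝ)) :=
    fun N => sep_pi
  have h1 : TopologicalSpace.SeparableSpace FT := sep_lp (by norm_num)
  exact sep_lp (by norm_num)

theorem sep_HN (n : ℕ) : TopologicalSpace.SeparableSpace (HN n) := by
  have h1 := sep_ET
  have h2 : TopologicalSpace.SeparableSpace (PiLp 1 (fun _ : Fin n => ET)) := sep_pi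
  have h3 : TopologicalSpace.SeparableSpace (lp (fun _ : ℤ => PiLp 1 (fun _ : Fin n => ET)) 2) :=
    sep_lp (by norm_num)
  infer_instance

theorem sep_WT : TopologicalSpace.SeparableSpace WT := by
  have h1 := sep_HN
  exact sep_lp (by norm_num)

/-- Finite products of trees: the isometric case. -/
theorem embG {M : Type} [MetricSpace M] (o : M) {n : ℕ} (T : Fin n → Type)
    [∀ j, MetricSpace (T j)] (hT : ∀ j, TL (T j)) (g : ∀ j, M → T j)
    (hg : ∀ x y, dist x y = ∑ j, dist (g j x) (g j y))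
    (hA : ∀ (k : ℤ) (j : Fin n), TotallyBounded (g j '' Ann o k)) :
    ∃ h : M → HN n, ∀ x y, 1 / 640 * dist x y ≤ dist (h x) (h y) ∧
      dist (h x) (h y) ≤ 21 * dist x y := by
  choose f hf1 hf2 hf3 using fun (k : ℤ) (j : Fin n) => embT (hT j) (g j o) (hA k j)
  let F : ℤ → M → PiLp 1 (fun _ : Fin n => ET) := fun k x => WithLp.toLp 1 fun j => f k j (g j x)
  have hF : ∀ k x y, ‖F k x - F k y‖ = ∑ j, ‖f k j (g j x) - f k j (g j y)‖ := by
    intro k x y
    rw [PiLp.norm_eq_of_L1]
    rfl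
  have hF0 : ∀ k x, ‖F k x‖ = ∑ j, ‖f k j (g j x)‖ := by
    intro k x
    rw [PiLp.norm_eq_of_L1]
  obtain ⟨h, hh⟩ := glue o F (c := 1 / 32) (L := 1) (K := 4) (by norm_num) (by norm_num)
    (by norm_num)
    (fun k x hx y hy => by
      rw [hF, hg, Finset.mul_sum]
      exact Finset.sum_le_sum fun j _ => hf1 k j _ (mem_image_of_mem _ hx) _
        (mem_image_of_mem _ hy))
    (fun k x hx y hy => by
      rw [hF, hg, Finset.mul_sum]
      exact Finset.sum_le_sum fun j _ => hf2 k j _ (mem_image_of_mem _ hx) _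
        (mem_image_of_mem _ hy))
    (fun k x hx => by
      rw [hF0]
      have h1 : ∑ j, ‖f k j (g j x)‖ ≤ dist x o := by
        rw [hg]
        exact Finset.sum_le_sum fun j _ => hf3 k j _
      refine h1.trans (hx.2.trans (le_of_eq ?_))
      rw [zpow_add₀ (by norm_num)]
      norm_num
      ring)
  refine ⟨h, fun x y => ?_⟩
  have h1 := hh x y
  have h2 : cGl (1 / 32) 4 = 1 / 640 := by
    unfold cGl
    norm_num
  rw [h2] at h1
  refine ⟨h1.1, h1.2.trans (le_of_eq ?_)⟩
  norm_num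

/-- Spaces with totally bounded bounded subsets in finite products of trees embed in `WT`. -/
theorem embW {M : Type} [MetricSpace M] (hM : ∀ A : Set M, Bornology.IsBounded A →
    TotallyBounded A) {n : ℕ} (T : Fin n → Type) [∀ j, MetricSpace (T j)] (hT : ∀ j, TL (T j))
    (g : ∀ j, M → T j) {r D : ℝ} (hr : 0 < r)
    (h1 : ∀ x y, r * dist x y ≤ ∑ j, dist (g j x) (g j y))
    (h2 : ∀ x y, ∑ j, dist (g j x) (g j y) ≤ D * r * dist x y) :
    ∃ (f : M → WT) (s : ℝ), 0 < s ∧ ∀ x y, s * dist x y ≤ dist (f x) (f y) ∧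
      dist (f x) (f y) ≤ 13440 * D * s * dist x y := by
  rcases isEmpty_or_nonempty M with hE | ⟨⟨o⟩⟩
  · exact ⟨fun _ => 0, 1, one_pos, fun x => (hE.false x).elim⟩
  -- the image in the product
  let G : M → PiLp 1 T := fun x => WithLp.toLp 1 fun j => g j x
  have hG : ∀ x y, dist (G x) (G y) = ∑ j, dist (g j x) (g j y) := by
    intro x y
    rw [PiLp.dist_eq_sum (by norm_num)]
    simp only [ENNReal.toReal_one, Real.rpow_one, div_one]
    rfl
  let g' : ∀ j, Set.range G → T j := fun j x => x.1 j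
  have hg' : ∀ x y : Set.range G, dist x y = ∑ j, dist (g' j x) (g' j y) := by
    rintro ⟨_, x, rfl⟩ ⟨_, y, rfl⟩
    rw [Subtype.dist_eq, hG]
  let o' : Set.range G := ⟨G o, o, rfl⟩
  have hA : ∀ (k : ℤ) (j : Fin n), TotallyBounded (g' j '' Ann o' k) := by
    intro k j
    have hb : Bornology.IsBounded {x : M | dist x o ≤ 2 ^ (k + 2) / r} := by
      rw [Metric.isBounded_iff_subset_closedBall o]
      exact ⟨2 ^ (k + 2) / r, fun x hx => hx⟩
    have hu : UniformContinuous (g j) := by
      refine (LipschitzWith.of_dist_le_mul (K := ⟨|D * r|, abs_nonneg _⟩) fun x y => ?_).uniformContinuous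
      calc dist (g j x) (g j y) ≤ ∑ i, dist (g i x) (g i y) :=
            Finset.single_le_sum (f := fun i => dist (g i x) (g i y))
              (fun i _ => dist_nonneg) (Finset.mem_univ j)
        _ ≤ D * r * dist x y := h2 x y
        _ ≤ |D * r| * dist x y := by gcongr; exact le_abs_self _
    refine ((hM _ hb).image hu).subset ?_
    rintro _ ⟨⟨_, x, rfl⟩, hx, rfl⟩
    refine ⟨x, ?_, rfl⟩
    have h3 : dist (G x) (G o) ≤ 2 ^ (k + 2) := hx.2
    change dist x o ≤ 2 ^ (k + 2) / r
    rw [le_div_iff₀ hr, mul_comm]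
    exact (h1 x o).trans (by rw [← hG]; exact h3)
  obtain ⟨h, hh⟩ := embG o' T hT g' hg' hA
  let F : M → WT := fun x => lp.single 2 n (h ⟨G x, x, rfl⟩)
  have hF : ∀ x y, dist (F x) (F y) = dist (h ⟨G x, x, rfl⟩) (h ⟨G y, y, rfl⟩) := by
    intro x y
    simp only [F]
    rw [dist_eq_norm, ← lp.single_sub, lp.norm_single (by norm_num), ← dist_eq_norm]
  refine ⟨F, r / 640, by positivity, fun x y => ?_⟩
  have h3 := hh ⟨G x, x, rfl⟩ ⟨G y, y, rfl⟩
  rw [Subtype.dist_eq, hG] at h3
  rw [hF]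
  refine ⟨le_trans ?_ h3.1, h3.2.trans ?_⟩
  · have := h1 x y
    linarith
  · have := h2 x y
    linarith

end Pool.Agent.Helper84.TR
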