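import Pool.Agent.Helper84.TR.Depth

/-! Binary trees spanned by points. -/

namespace Pool.Agent.Helper84.TR

open Set

section

variable {M : Type*} [MetricSpace M]

/-- Points of `A` which span a complete binary tree of depth `k` with long ends. -/
def SBT (o : M) (A : Set M) (δ : ℝ) (k : ℕ) (φ : (Fin k → Bool) → M) : Prop :=
  (∀ s, φ s ∈ A) ∧ (∀ s t, s ≠ t → gp o (φ s) (φ t) + δ < dist (φ s) o) ∧
  ∀ s t u, (∃ i : Fin k, (∀ j ≤ i, s j = t j) ∧ s i ≠ u i) →
    gp o (φ s) (φ u) < gp o (φ s) (φ t)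

theorem gp_across (hT : TL M) {o y z a b : M} {s t : ℝ} (h1 : gp o y z ≤ s) (h2 : gp o y z ≤ t)
    (ha : s < gp o y a) (hb : t < gp o z b) : gp o a b ≤ gp o y z := by
  by_contra hcon
  push Not at hcon
  have h3 := gp_tree hT o y z a
  have h4 := gp_tree hT o a z b
  rw [gp_comm o b z] at h4
  have h5 : gp o y z < gp o a z := lt_of_lt_of_le (lt_min hcon (lt_of_le_of_lt h2 hb)) h4
  have h6 := lt_of_lt_of_le (lt_min (lt_of_le_of_lt h1 ha) h5) h3
  exact lt_irrefl _ h6

theorem exists_SBT (hT : TL M) {o : M} {A : Set M} {δ : ℝ} (k : ℕ) :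
    ∀ (x : M) (q : ℝ), Dp o A δ k x q →
      ∃ φ : (Fin k → Bool) → M, SBT o A δ k φ ∧ (∀ s, q < gp o x (φ s)) ∧
        ∀ s, q + δ < dist (φ s) o := by
  induction k with
  | zero =>
    rintro x q ⟨y, hy, h1, h2⟩
    refine ⟨fun _ => y, ⟨fun _ => hy, fun s t hst => absurd (Subsingleton.elim s t) hst, ?_⟩,
      fun _ => h1, fun _ => h2⟩
    rintro s t u ⟨i, -⟩
    exact i.elim0
  | succ k ih =>
    rintro x q ⟨y, z, a, b, h1, h2, h3, h4, h5, h6, h7, h8⟩
    obtain ⟨φ, ⟨hφ1, hφ2, hφ3⟩, hφ4, hφ5⟩ := ih y a h7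
    obtain ⟨ψ, ⟨hψ1, hψ2, hψ3⟩, hψ4, hψ5⟩ := ih z b h8
    let Φ : (Fin (k + 1) → Bool) → M := fun s => if s 0 = true then φ (Fin.tail s) else
      ψ (Fin.tail s)
    have ht : ∀ s : Fin (k + 1) → Bool, s 0 = true → Φ s = φ (Fin.tail s) := fun s h => by
      simp only [Φ]
      rw [if_pos h]
    have hf : ∀ s : Fin (k + 1) → Bool, s 0 = false → Φ s = ψ (Fin.tail s) := fun s h => by
      simp only [Φ]
      rw [if_neg (by rw [h]; exact Bool.false_ne_true)]
    have hcr : ∀ s t, gp o (φ s) (ψ t) ≤ gp o y z := fun s t =>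
      gp_across hT h5 h6 (hφ4 s) (hψ4 t)
    have hin1 : ∀ s t, a < gp o (φ s) (φ t) := fun s t => by
      have := gp_tree hT o (φ s) (φ t) y
      rw [gp_comm o (φ s) y] at this
      exact lt_of_lt_of_le (lt_min (hφ4 s) (hφ4 t)) this
    have hin2 : ∀ s t, b < gp o (ψ s) (ψ t) := fun s t => by
      have := gp_tree hT o (ψ s) (ψ t) z
      rw [gp_comm o (ψ s) z] at this
      exact lt_of_lt_of_le (lt_min (hψ4 s) (hψ4 t)) this
    have htail : ∀ s t : Fin (k + 1) → Bool, s 0 = t 0 → s ≠ t → Fin.tail s ≠ Fin.tail t := by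
      intro s t h0 hne h
      apply hne
      funext i
      refine Fin.cases h0 (fun j => ?_) i
      exact congrFun h j
    refine ⟨Φ, ⟨fun s => ?_, fun s t hst => ?_, fun s t u h => ?_⟩, fun s => ?_, fun s => ?_⟩
    · cases hs : s 0
      · rw [hf s hs]; exact hψ1 _
      · rw [ht s hs]; exact hφ1 _
    · cases hs : s 0 <;> cases ht' : t 0
      · rw [hf s hs, hf t ht']
        exact hψ2 _ _ (htail s t (by rw [hs, ht']) hst)
      · rw [hf s hs, ht t ht', gp_comm]
        have := hcr (Fin.tail t) (Fin.tail s)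
        have := hψ5 (Fin.tail s)
        linarith
      · rw [ht s hs, hf t ht']
        have := hcr (Fin.tail s) (Fin.tail t)
        have := hφ5 (Fin.tail s)
        linarith
      · rw [ht s hs, ht t ht']
        exact hφ2 _ _ (htail s t (by rw [hs, ht']) hst)
    · obtain ⟨i, hi1, hi2⟩ := h
      have hst : s 0 = t 0 := hi1 0 (Fin.zero_le i)
      cases hs : s 0
      · have ht' : t 0 = false := by rw [← hst, hs]
        cases hu : u 0
        · rw [hf s hs, hf t ht', hf u hu]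
          refine hψ3 _ _ _ ?_
          revert hi1 hi2
          refine Fin.cases (fun _ h => absurd (by rw [hs, hu]) h) (fun i' hi1 hi2 => ?_) i
          exact ⟨i', fun j hj => hi1 j.succ (Fin.succ_le_succ_iff.2 hj), hi2⟩
        · rw [hf s hs, hf t ht', ht u hu]
          have h9 := hcr (Fin.tail u) (Fin.tail s)
          rw [gp_comm] at h9
          have := hin2 (Fin.tail s) (Fin.tail t)
          linarith
      · have ht' : t 0 = true := by rw [← hst, hs]
        cases hu : u 0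
        · rw [ht s hs, ht t ht', hf u hu]
          have h9 := hcr (Fin.tail s) (Fin.tail u)
          have := hin1 (Fin.tail s) (Fin.tail t)
          linarith
        · rw [ht s hs, ht t ht', ht u hu]
          refine hφ3 _ _ _ ?_
          revert hi1 hi2
          refine Fin.cases (fun _ h => absurd (by rw [hs, hu]) h) (fun i' hi1 hi2 => ?_) i
          exact ⟨i', fun j hj => hi1 j.succ (Fin.succ_le_succ_iff.2 hj), hi2⟩
    · cases hs : s 0
      · rw [hf s hs]
        exact lt_of_lt_of_le (lt_min h4 (lt_of_le_of_lt h2 (hψ4 _)))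
          (gp_tree hT o x (ψ (Fin.tail s)) z)
      · rw [ht s hs]
        exact lt_of_lt_of_le (lt_min h3 (lt_of_le_of_lt h1 (hφ4 _)))
          (gp_tree hT o x (φ (Fin.tail s)) y)
    · cases hs : s 0
      · rw [hf s hs]
        have := hψ5 (Fin.tail s)
        linarith
      · rw [ht s hs]
        have := hφ5 (Fin.tail s)
        linarith

/-- The set `A` has finite depth at each scale. -/
def FD (o : M) (A : Set M) : Prop :=
  ∀ δ : ℝ, 0 < δ → ∃ k : ℕ, ∀ φ : (Fin k → Bool) → M, ¬ SBT o A δ k φ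

theorem not_Dp (hT : TL M) {o : M} {A : Set M} (h : FD o A) {δ : ℝ} (hδ : 0 < δ) :
    ∃ k : ℕ, ∀ x q, ¬ Dp o A δ k x q := by
  obtain ⟨k, hk⟩ := h δ hδ
  refine ⟨k, fun x q hx => ?_⟩
  obtain ⟨φ, hφ, -⟩ := exists_SBT hT k x q hx
  exact hk φ hφ

theorem FD_mono {o : M} {A B : Set M} (hAB : A ⊆ B) (h : FD o B) : FD o A := by
  intro δ hδ
  obtain ⟨k, hk⟩ := h δ hδ
  exact ⟨k, fun φ hφ => hk φ ⟨fun s => hAB (hφ.1 s), hφ.2⟩⟩

/-- Totally bounded sets have finite depth at each scale. -/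
theorem FD_of_tb {A : Set M} (o : M) (hA : TotallyBounded A) : FD o A := by
  classical
  intro δ hδ
  obtain ⟨t, ht, hAt⟩ := Metric.totallyBounded_iff.1 hA δ hδ
  refine ⟨ht.toFinset.card, fun φ hφ => ?_⟩
  obtain ⟨h1, h2, -⟩ := hφ
  have h3 : ∀ s, ∃ c ∈ ht.toFinset, dist (φ s) c < δ := by
    intro s
    obtain ⟨c, hc, hc'⟩ := mem_iUnion₂.1 (hAt (h1 s))
    exact ⟨c, ht.mem_toFinset.2 hc, hc'⟩
  choose c hc1 hc2 using h3
  have h4 : ht.toFinset.card < (Finset.univ : Finset (Fin ht.toFinset.card → Bool)).card := by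
    rw [Finset.card_univ, Fintype.card_fun, Fintype.card_bool, Fintype.card_fin]
    exact Nat.lt_two_pow_self
  obtain ⟨s, -, u, -, hne, heq⟩ := Finset.exists_ne_map_eq_of_card_lt_of_maps_to h4
    (fun s _ => hc1 s)
  have h5 := h2 s u hne
  have h6 := h2 u s hne.symm
  have h7 := hc2 s
  have h8 := hc2 u
  rw [heq] at h7
  have h9 := dist_triangle_right (φ s) (φ u) (c u)
  rw [gp_comm] at h6
  have h10 : dist (φ s) (φ u) = (dist (φ s) o - gp o (φ s) (φ u)) +
      (dist (φ u) o - gp o (φ s) (φ u)) := by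
    unfold gp
    ring
  linarith

end

end Pool.Agent.Helper84.TR
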