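import Pool.Agent.Helper84.TR.Host
import Pool.Agent.Helper84.TR.Fin
import Pool.Agent.Helper84.TR.Binary

/-! Trees of countable rank: the embedding of the bounded parts. -/

namespace Pool.Agent.Helper84.TR

open MeasureTheory Set ENNReal Pool.Agent.Helper85.TS

/-- The data of the colour `m`. -/
noncomputable def datm {M : Type} [MetricSpace M] (hT : TL M) (o : M) (A : Set M) (y : ℕ → M)
    (hy : ∀ (x : M) (ε : ℝ), 0 < ε → ∃ i, dist x (y i) < ε) (m : ℕ) : Dat where
  M := M
  hT := hT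
  o := o
  A := A
  δ := 1 / 2 ^ m
  y := y
  hy := hy
  K := fun x => Col 1 (sg o A 1 x) m
  K1 := fun x x' r hr h => col_agree hT o A one_pos x x' m hr h
  K2 := fun x => meas_Col 1 _ m
  K3 := fun x r h => by
    obtain ⟨n, -, h1, -⟩ := h
    exact (sg_nonneg o A 1 x n).trans h1
  K4 := fun x r h => by
    obtain ⟨n, hnm, h1, h2, -⟩ := h
    obtain ⟨y, hy, h3, h4⟩ := sg_wit ((sg_nonneg o A 1 x n).trans h1) h2
    have h5 : (1 : ℝ) / 2 ^ m ≤ 1 / 2 ^ n := anti one_pos hnm
    exact ⟨y, hy, h3, by linarith⟩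

section

variable {M : Type} [MetricSpace M] {o : M} {A : Set M}

theorem col_sub (x : M) (m : ℕ) : Col 1 (sg o A 1 x) m ⊆ Ico 0 (dist x o) := by
  rintro r ⟨n, -, h1, h2, -⟩
  exact ⟨(sg_nonneg o A 1 x n).trans h1, lt_of_lt_of_le h2 (sg_le o A 1 x (n + 1))⟩

theorem sum_col (x : M) {a : ℝ} (ha : a ≤ dist x o) (s : Finset ℕ) :
    ∑ m ∈ s, volume.real (Col 1 (sg o A 1 x) m ∩ Ici a) ≤ dist x o - a := by
  classical
  rw [← Real.volume_real_Ico_of_le ha]
  rw [← measureReal_biUnion_finset (μ := volume)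
    (f := fun m => Col 1 (sg o A 1 x) m ∩ Ici a)
    (fun m _ m' _ hne => ?_) (fun m _ => (meas_Col 1 _ m).inter measurableSet_Ici)
    (fun m _ => ?_)]
  · refine measureReal_mono ?_ (measure_Ico_lt_top).ne
    exact iUnion₂_subset fun m _ r hr => ⟨hr.2, (col_sub x m hr.1).2⟩
  · rw [Function.onFun, Set.disjoint_left]
    rintro r ⟨h1, -⟩ ⟨h2, -⟩
    exact col_disj one_pos (sg_mono o A one_pos x) hne h1 h2
  · exact ne_top_of_le_ne_top (measure_Ico_lt_top (a := 0) (b := dist x o)).ne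
      (measure_mono fun r hr => col_sub x m hr.1)

theorem base_one : (-1 : ℝ) < gp o o o := by
  rw [gp_self, dist_self]
  norm_num

end

/-- The space for bounded parts. -/
abbrev ER (E : Bn) : Type := lp (fun _ : ℕ => E.X) 2

/-- The bounded parts of trees of rank `W` embed. -/
theorem embR (W : Type) [LinearOrder W] [WellFoundedLT W] [Countable W] :
    ∃ E : Bn, ∀ (M : Type) [MetricSpace M], TL M → ∀ (o : M) (A : Set M) (y : ℕ → M),
      (∀ (x : M) (ε : ℝ), 0 < ε → ∃ i, dist x (y i) < ε) →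
      (∀ (m : ℕ) (x : M) (q : ℝ), ∃ w : W, ¬ Deep o A (1 / 2 ^ m) w x q) →
      ∃ f : M → ER E, (∀ x ∈ A, ∀ z ∈ A, 1 / 32 * dist x z ≤ ‖f x - f z‖) ∧
        (∀ x ∈ A, ∀ z ∈ A, ‖f x - f z‖ ≤ 1 * dist x z) ∧ ∀ x, ‖f x‖ ≤ dist x o := by
  classical
  obtain ⟨E, hE⟩ := exists_host W
  refine ⟨E, fun M _ hT o A y hy hR => ?_⟩
  have h1 : ∀ m : ℕ, ∃ G : M → E.X, (datm hT o A y hy m).Good G o (-1) := fun m =>
    hE (datm hT o A y hy m) o (hR m)
  choose G hG using h1
  have hpos : ∀ x : M, (-1 : ℝ) < gp o x o := fun x => lt_of_lt_of_le (by norm_num) (gp_nonneg o x o)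
  have hG1 : ∀ m x, ‖G m x‖ = volume.real (Col 1 (sg o A 1 x) m ∩ Ici 0) := by
    intro m x
    have h2 := (hG m).1 x (hpos x)
    rw [h2]
    congr 1
    ext r
    constructor
    · rintro ⟨h3, -⟩
      exact ⟨h3, (col_sub x m h3).1⟩
    · rintro ⟨h3, h4⟩
      exact ⟨h3, lt_of_lt_of_le (by norm_num : (-1 : ℝ) < 0) h4⟩
  have hG2 : ∀ m x x', volume.real (Col 1 (sg o A 1 x) m ∩ Ici (gp o x x')) ≤
      ‖G m x - G m x'‖ := fun m x x' => ((hG m).2 x x' (hpos x) (hpos x')).1
  have hG3 : ∀ m x x', ‖G m x - G m x'‖ ≤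
      volume.real (Col 1 (sg o A 1 x) m ∩ Ici (gp o x x')) +
      volume.real (Col 1 (sg o A 1 x') m ∩ Ici (gp o x x')) :=
    fun m x x' => ((hG m).2 x x' (hpos x) (hpos x')).2
  have hsum : ∀ (x : M) (s : Finset ℕ), ∑ m ∈ s, ‖G m x‖ ≤ dist x o := by
    intro x s
    simp only [hG1]
    have := sum_col (o := o) (A := A) x (a := 0) dist_nonneg s
    rw [sub_zero] at this
    exact this
  have hsum2 : ∀ (x x' : M) (s : Finset ℕ), ∑ m ∈ s, ‖G m x - G m x'‖ ≤ dist x x' := by
    intro x x' s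
    refine (Finset.sum_le_sum fun m _ => hG3 m x x').trans ?_
    rw [Finset.sum_add_distrib]
    have h1 := sum_col (o := o) (A := A) x (gp_le_left o x x') s
    have h2 := sum_col (o := o) (A := A) x' (gp_le_right o x x') s
    have h3 : (dist x o - gp o x x') + (dist x' o - gp o x x') = dist x x' := by
      unfold gp
      ring
    linarith
  have hmem : ∀ (x : M) (s : Finset ℕ), ∑ m ∈ s, ‖G m x‖ ^ (2 : ℝ≥0∞).toReal ≤
      dist x o ^ (2 : ℝ≥0∞).toReal := fun x s => sq_sum s (fun m => G m x) (hsum x s)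
  let f : M → ER E := fun x => ⟨fun m => G m x, memℓp_gen' (hmem x)⟩
  have hf : ∀ x z m, (f x - f z) m = G m x - G m z := fun x z m => rfl
  have hlow : ∀ x ∈ A, ∀ z, gp o x z < dist x o → (dist x o - gp o x z) / 16 ≤ ‖f x - f z‖ := by
    intro x hx z h
    obtain ⟨m, u, v, h1, h2, h3, h4⟩ := window (D := 1) one_pos (sg_mono o A one_pos x) rfl
      (sg_le o A 1 x) (sg_ge o one_pos hx) (gp_nonneg o x z) h
    have h5 : Ioo u v ⊆ Col 1 (sg o A 1 x) m ∩ Ici (gp o x z) := fun r hr =>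
      ⟨h4 r hr.1 hr.2, h1.trans hr.1.le⟩
    have h6 : volume (Col 1 (sg o A 1 x) m ∩ Ici (gp o x z)) ≠ ∞ :=
      ne_top_of_le_ne_top (measure_Ico_lt_top (a := 0) (b := dist x o)).ne
        (measure_mono fun r hr => col_sub x m hr.1)
    have h7 := measureReal_mono h5 h6
    have huv : u ≤ v := by linarith
    rw [Real.volume_real_Ioo_of_le huv] at h7
    have h8 := hG2 m x z
    rw [← hf] at h8
    have h9 := lp.norm_apply_le_norm (p := 2) (by norm_num) (f x - f z) m
    linarith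
  refine ⟨f, fun x hx z hz => ?_, fun x _ z _ => ?_, fun x => ?_⟩
  · rcases eq_or_ne x z with rfl | hxz
    · rw [dist_self, mul_zero]; exact norm_nonneg _
    · have hd : 0 < dist x z := dist_pos.2 hxz
      have h3 : (dist x o - gp o x z) + (dist z o - gp o x z) = dist x z := by
        unfold gp
        ring
      rcases le_total (dist z o) (dist x o) with h | h
      · have := hlow x hx z (by linarith)
        linarith
      · have := hlow z hz x (by rw [gp_comm]; linarith)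
        rw [gp_comm, norm_sub_rev] at this
        linarith
  · rw [one_mul]
    refine lp.norm_le_of_forall_sum_le (by norm_num) dist_nonneg fun s => ?_
    refine sq_sum s _ ?_
    simp only [hf]
    exact hsum2 x z s
  · exact lp.norm_le_of_forall_sum_le (by norm_num) dist_nonneg fun s => hmem x s

end Pool.Agent.Helper84.TR
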