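import Pool.Agent.Helper84.TR.Asm

/-! Trees of countable rank: finite products, all of the space. -/

namespace Pool.Agent.Helper84.TR

open Set ENNReal Pool.Agent.Helper85.TS

/-- Depth is preserved by isometric embeddings. -/
theorem deep_emb {W : Type*} [LinearOrder W] [WellFoundedLT W] {M' M : Type*} [MetricSpace M']
    [MetricSpace M] (i : M' → M) (hi : ∀ x y, dist (i x) (i y) = dist x y) {o' : M'}
    {A' : Set M'} {A : Set M} (hA : ∀ x ∈ A', i x ∈ A) {δ : ℝ} (w : W) :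
    ∀ x q, Deep o' A' δ w x q → Deep (i o') A δ w (i x) q := by
  have hg : ∀ x y, gp (i o') (i x) (i y) = gp o' x y := fun x y => by
    unfold gp
    rw [hi, hi, hi]
  induction w using WellFoundedLT.induction with
  | ind w ih =>
    intro x q h
    rw [deep_iff] at h ⊢
    obtain ⟨⟨y, hy, h1, h2⟩, h3⟩ := h
    refine ⟨⟨i y, hA y hy, by rw [hg]; exact h1, by rw [hi]; exact h2⟩, fun v hv => ?_⟩
    obtain ⟨y, z, s, t, a1, a2, a3, a4, a5, a6, a7, a8⟩ := h3 v hv
    exact ⟨i y, i z, s, t, a1, a2, by rw [hg]; exact a3, by rw [hg]; exact a4,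
      by rw [hg]; exact a5, by rw [hg]; exact a6, ih v hv y s a7, ih v hv z t a8⟩

/-- The host space for `n` trees. -/
abbrev HNR (E : Bn) (n : ℕ) : Type := lp (fun _ : ℤ => PiLp 1 (fun _ : Fin n => ER E)) 2 × ℝ

/-- The host space. -/
abbrev WR (E : Bn) : Type := lp (fun n : ℕ => HNR E n) 2

theorem rfx_WR (E : Bn) : Rfx (WR E) := rfx_lp two_conj (by norm_num) fun _ =>
  rfx_prod (rfx_lp two_conj (by norm_num) fun _ => rfx_pi
    (rfx_lp two_conj (by norm_num) fun _ => E.rf)) (rfx_fin ℝ)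

theorem sep_WR (E : Bn) : TopologicalSpace.SeparableSpace (WR E) := by
  have h1 : TopologicalSpace.SeparableSpace (ER E) := sep_lp (by norm_num)
  have h0 : ∀ n : ℕ, TopologicalSpace.SeparableSpace (HNR E n) := by
    intro n
    have h2 : TopologicalSpace.SeparableSpace (PiLp 1 (fun _ : Fin n => ER E)) := sep_pi
    have h3 : TopologicalSpace.SeparableSpace
      (lp (fun _ : ℤ => PiLp 1 (fun _ : Fin n => ER E)) 2) := sep_lp (by norm_num)
    infer_instance
  exact sep_lp (by norm_num)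

/-- The bounded parts of trees of rank `W` embed in `E`. -/
def Hst (W : Type) [LinearOrder W] [WellFoundedLT W] (E : Bn) : Prop :=
  ∀ (M : Type) [MetricSpace M], TL M → ∀ (o : M) (A : Set M) (y : ℕ → M),
      (∀ (x : M) (ε : ℝ), 0 < ε → ∃ i, dist x (y i) < ε) →
      (∀ (m : ℕ) (x : M) (q : ℝ), ∃ w : W, ¬ Deep o A (1 / 2 ^ m) w x q) →
      ∃ f : M → ER E, (∀ x ∈ A, ∀ z ∈ A, 1 / 32 * dist x z ≤ ‖f x - f z‖) ∧
        (∀ x ∈ A, ∀ z ∈ A, ‖f x - f z‖ ≤ 1 * dist x z) ∧ ∀ x, ‖f x‖ ≤ dist x o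

/-- Finite products of trees: the isometric case. -/
theorem embGR (W : Type) [LinearOrder W] [WellFoundedLT W] {E : Bn} (hE : Hst W E)
    {M : Type} [MetricSpace M] (o : M) {n : ℕ} (T : Fin n → Type)
    [∀ j, MetricSpace (T j)] (hT : ∀ j, TL (T j)) (g : ∀ j, M → T j)
    (hg : ∀ x y, dist x y = ∑ j, dist (g j x) (g j y))
    (hy : ∀ j, ∃ y : ℕ → T j, ∀ (x : T j) (ε : ℝ), 0 < ε → ∃ i, dist x (y i) < ε)
    (hA : ∀ (k : ℤ) (j : Fin n) (m : ℕ) (x : T j) (q : ℝ), ∃ w : W,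
      ¬ Deep (g j o) (g j '' Ann o k) (1 / 2 ^ m) w x q) :
    ∃ h : M → HNR E n, ∀ x y, 1 / 640 * dist x y ≤ dist (h x) (h y) ∧
      dist (h x) (h y) ≤ 21 * dist x y := by
  choose y hy using hy
  choose f hf1 hf2 hf3 using fun (k : ℤ) (j : Fin n) => hE (T j) (hT j) (g j o) (g j '' Ann o k)
    (y j) (hy j) (hA k j)
  let F : ℤ → M → PiLp 1 (fun _ : Fin n => ER E) := fun k x =>
    WithLp.toLp 1 fun j => f k j (g j x)
  have hF : ∀ k x y, ‖F k x - F k y‖ = ∑ j, ‖f k j (g j x) - f k j (g j y)‖ := by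
    intro k x y
    rw [PiLp.norm_eq_of_L1]
    rfl
  have hF0 : ∀ k x, ‖F k x‖ = ∑ j, ‖f k j (g j x)‖ := by
    intro k x
    rw [PiLp.norm_eq_of_L1]
  obtain ⟨h, hh⟩ := glue o F (c := 1 / 32) (L := 1) (K := 4) (by norm_num) (by norm_num)
    (by norm_num)
    (fun k x hx y hy => by
      rw [hF, hg, Finset.mul_sum]
      exact Finset.sum_le_sum fun j _ => hf1 k j _ (mem_image_of_mem _ hx) _
        (mem_image_of_mem _ hy))
    (fun k x hx y hy => by
      rw [hF, hg, Finset.mul_sum]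
      exact Finset.sum_le_sum fun j _ => hf2 k j _ (mem_image_of_mem _ hx) _
        (mem_image_of_mem _ hy))
    (fun k x hx => by
      rw [hF0]
      have h1 : ∑ j, ‖f k j (g j x)‖ ≤ dist x o := by
        rw [hg]
        exact Finset.sum_le_sum fun j _ => hf3 k j _
      refine h1.trans (hx.2.trans (le_of_eq ?_))
      rw [zpow_add₀ (by norm_num)]
      norm_num
      ring)
  refine ⟨h, fun x y => ?_⟩
  have h1 := hh x y
  have h2 : cGl (1 / 32) 4 = 1 / 640 := by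
    unfold cGl
    norm_num
  rw [h2] at h1
  refine ⟨h1.1, h1.2.trans (le_of_eq ?_)⟩
  norm_num

/-- Separable spaces in finite products of trees of rank `W` embed in `WR E`. -/
theorem embWR (W : Type) [LinearOrder W] [WellFoundedLT W] {E : Bn} (hE : Hst W E)
    {M : Type} [MetricSpace M] [TopologicalSpace.SeparableSpace M] (o : M)
    {n : ℕ} (T : Fin n → Type) [∀ j, MetricSpace (T j)] (hT : ∀ j, TL (T j))
    (g : ∀ j, M → T j) {r D : ℝ} (hr : 0 < r)
    (h1 : ∀ x y, r * dist x y ≤ ∑ j, dist (g j x) (g j y))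
    (h2 : ∀ x y, ∑ j, dist (g j x) (g j y) ≤ D * r * dist x y)
    (hR : ∀ A : Set M, Bornology.IsBounded A → ∀ (j : Fin n) (m : ℕ) (x : T j) (q : ℝ), ∃ w : W,
      ¬ Deep (g j o) (g j '' A) (1 / 2 ^ m) w x q) :
    ∃ (f : M → WR E) (s : ℝ), 0 < s ∧ ∀ x y, s * dist x y ≤ dist (f x) (f y) ∧
      dist (f x) (f y) ≤ 13440 * D * s * dist x y := by
  -- the image in the product
  let G : M → PiLp 1 T := fun x => WithLp.toLp 1 fun j => g j x
  have hG : ∀ x y, dist (G x) (G y) = ∑ j, dist (g j x) (g j y) := by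
    intro x y
    rw [PiLp.dist_eq_sum (by norm_num)]
    simp only [ENNReal.toReal_one, Real.rpow_one, div_one]
    rfl
  let T' : Fin n → Type := fun j => Set.range (g j)
  let g' : ∀ j, Set.range G → T' j := fun j x => ⟨x.1 j, by
    obtain ⟨_, x, rfl⟩ := x
    exact ⟨x, rfl⟩⟩
  have hg' : ∀ x y : Set.range G, dist x y = ∑ j, dist (g' j x) (g' j y) := by
    rintro ⟨_, x, rfl⟩ ⟨_, y, rfl⟩
    rw [Subtype.dist_eq, hG]
    rfl
  let o' : Set.range G := ⟨G o, o, rfl⟩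
  have hT' : ∀ j, TL (T' j) := fun j x y z w => hT j x.1 y.1 z.1 w.1
  have hlip : ∀ j x y, dist (g j x) (g j y) ≤ |D * r| * dist x y := by
    intro j x y
    calc dist (g j x) (g j y) ≤ ∑ i, dist (g i x) (g i y) :=
          Finset.single_le_sum (f := fun i => dist (g i x) (g i y))
            (fun i _ => dist_nonneg) (Finset.mem_univ j)
      _ ≤ D * r * dist x y := h2 x y
      _ ≤ |D * r| * dist x y := by gcongr; exact le_abs_self _
  have hy : ∀ j, ∃ y : ℕ → T' j, ∀ (x : T' j) (ε : ℝ), 0 < ε → ∃ i, dist x (y i) < ε := by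
    intro j
    have : Nonempty M := ⟨o⟩
    obtain ⟨u, hu⟩ := TopologicalSpace.exists_dense_seq M
    refine ⟨fun i => ⟨g j (u i), u i, rfl⟩, ?_⟩
    rintro ⟨_, x, rfl⟩ ε hε
    have h3 : 0 < |D * r| + 1 := by positivity
    obtain ⟨i, hi⟩ := hu.exists_dist_lt x (show 0 < ε / (|D * r| + 1) by positivity)
    refine ⟨i, ?_⟩
    rw [Subtype.dist_eq]
    change dist (g j x) (g j (u i)) < ε
    rw [lt_div_iff₀ h3] at hi
    have h4 := hlip j x (u i)
    have h5 : 0 ≤ dist x (u i) := dist_nonneg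
    nlinarith
  have hA : ∀ (k : ℤ) (j : Fin n) (m : ℕ) (x : T' j) (q : ℝ), ∃ w : W,
      ¬ Deep (g' j o') (g' j '' Ann o' k) (1 / 2 ^ m) w x q := by
    intro k j m x q
    have hb : Bornology.IsBounded {x : M | dist x o ≤ 2 ^ (k + 2) / r} := by
      rw [Metric.isBounded_iff_subset_closedBall o]
      exact ⟨2 ^ (k + 2) / r, fun x hx => hx⟩
    obtain ⟨w, hw⟩ := hR _ hb j m x.1 q
    refine ⟨w, fun hd => hw ?_⟩
    refine deep_emb (fun x : T' j => x.1) (fun _ _ => rfl) ?_ w x q hd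
    rintro _ ⟨⟨_, z, rfl⟩, hz, rfl⟩
    refine ⟨z, ?_, rfl⟩
    have h3 : dist (G z) (G o) ≤ 2 ^ (k + 2) := hz.2
    change dist z o ≤ 2 ^ (k + 2) / r
    rw [le_div_iff₀ hr, mul_comm]
    exact (h1 z o).trans (by rw [← hG]; exact h3)
  obtain ⟨h, hh⟩ := embGR W hE o' T' hT' g' hg' hy hA
  let F : M → WR E := fun x => lp.single 2 n (h ⟨G x, x, rfl⟩)
  have hF : ∀ x y, dist (F x) (F y) = dist (h ⟨G x, x, rfl⟩) (h ⟨G y, y, rfl⟩) := by
    intro x y
    simp only [F]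
    rw [dist_eq_norm, ← lp.single_sub, lp.norm_single (by norm_num), ← dist_eq_norm]
  refine ⟨F, r / 640, by positivity, fun x y => ?_⟩
  have h3 := hh ⟨G x, x, rfl⟩ ⟨G y, y, rfl⟩
  rw [Subtype.dist_eq, hG] at h3
  rw [hF]
  refine ⟨le_trans ?_ h3.1, h3.2.trans ?_⟩
  · have := h1 x y
    linarith
  · have := h2 x y
    linarith

end Pool.Agent.Helper84.TR
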