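import Pool.Agent.Helper84.TR.Tree

/-! Depth of branching at a scale, and the labels it gives. -/

namespace Pool.Agent.Helper84.TR

open MeasureTheory Set

section

variable {M : Type*} [MetricSpace M]

/-- Above the point at distance `q` from `o` on the segment from `o` to `x`, the segments from `o`
to the points of `A` contain a binary tree of depth `k` all branches of which go on for more
than `δ`. -/
def Dp (o : M) (A : Set M) (δ : ℝ) : ℕ → M → ℝ → Prop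
  | 0, x, q => ∃ y ∈ A, q < gp o x y ∧ q + δ < dist y o
  | k + 1, x, q => ∃ (y z : M) (s t : ℝ), q ≤ s ∧ q ≤ t ∧ q < gp o x y ∧ q < gp o x z ∧
      gp o y z ≤ s ∧ gp o y z ≤ t ∧ Dp o A δ k y s ∧ Dp o A δ k z t

theorem Dp_mono (hT : TL M) {o : M} {A : Set M} {δ : ℝ} {k : ℕ} {x z : M} {q s : ℝ}
    (h : Dp o A δ k z s) (hqs : q ≤ s) (hq : q < gp o x z) : Dp o A δ k x q := by
  cases k with
  | zero =>
    obtain ⟨y, hy, h1, h2⟩ := h
    exact ⟨y, hy, lt_of_lt_of_le (lt_min hq (lt_of_le_of_lt hqs h1)) (gp_tree hT o x y z),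
      by linarith⟩
  | succ k =>
    obtain ⟨y, y', s', t', h1, h2, h3, h4, h5, h6, h7, h8⟩ := h
    exact ⟨y, y', s', t', hqs.trans h1, hqs.trans h2,
      lt_of_lt_of_le (lt_min hq (lt_of_le_of_lt hqs h3)) (gp_tree hT o x y z),
      lt_of_lt_of_le (lt_min hq (lt_of_le_of_lt hqs h4)) (gp_tree hT o x y' z), h5, h6, h7, h8⟩

theorem Dp_succ (hT : TL M) {o : M} {A : Set M} {δ : ℝ} {k : ℕ} {x : M} {q : ℝ}
    (h : Dp o A δ (k + 1) x q) : Dp o A δ k x q := by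
  obtain ⟨y, _, s, _, h1, _, h3, _, _, _, h7, _⟩ := h
  exact Dp_mono hT h7 h1 h3

theorem Dp_le (hT : TL M) {o : M} {A : Set M} {δ : ℝ} {k j : ℕ} {x : M} {q : ℝ}
    (hjk : j ≤ k) (h : Dp o A δ k x q) : Dp o A δ j x q := by
  induction k, hjk using Nat.le_induction with
  | base => exact h
  | succ k _ ih => exact ih (Dp_succ hT h)

theorem Dp_lt {o : M} {A : Set M} {δ : ℝ} {k : ℕ} {x : M} {q : ℝ}
    (h : Dp o A δ k x q) : q < dist x o := by
  cases k with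
  | zero =>
    obtain ⟨y, _, h1, _⟩ := h
    exact lt_of_lt_of_le h1 (gp_le_left o x y)
  | succ k =>
    obtain ⟨y, _, _, _, _, _, h3, _⟩ := h
    exact lt_of_lt_of_le h3 (gp_le_left o x y)

theorem Dp_self (hT : TL M) {o : M} {A : Set M} {δ : ℝ} {k : ℕ} {x : M} {q s : ℝ}
    (h : Dp o A δ k x s) (hqs : q ≤ s) : Dp o A δ k x q :=
  Dp_mono hT h hqs (by rw [gp_self]; exact lt_of_le_of_lt hqs (Dp_lt h))

/-- The level of the depth. -/
def lev (o : M) (A : Set M) (δ : ℝ) (k : ℕ) (x : M) (q : ℝ) : Prop :=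
  Dp o A δ k x q ∧ ¬ Dp o A δ (k + 1) x q

variable {o : M} {A : Set M} {δ : ℝ}

theorem lev_agree (hT : TL M) {k : ℕ} {x x' : M} {q : ℝ} (hq : q < gp o x x')
    (h : lev o A δ k x q) : lev o A δ k x' q :=
  ⟨Dp_mono hT h.1 le_rfl (by rw [gp_comm]; exact hq), fun h' => h.2 (Dp_mono hT h' le_rfl hq)⟩

theorem lev_conv (hT : TL M) {k : ℕ} {x : M} {q s r : ℝ} (hs : lev o A δ k x s)
    (hr : lev o A δ k x r) (h1 : s ≤ q) (h2 : q ≤ r) : lev o A δ k x q :=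
  ⟨Dp_self hT hr.1 h2, fun h' => hs.2 (Dp_self hT h' h1)⟩

theorem lev_unique (hT : TL M) {k k' : ℕ} {x : M} {q : ℝ} (h : lev o A δ k x q)
    (h' : lev o A δ k' x q) : k = k' := by
  rcases lt_trichotomy k k' with hlt | heq | hlt
  · exact absurd (Dp_le hT (show k + 1 ≤ k' from hlt) h'.1) h.2
  · exact heq
  · exact absurd (Dp_le hT (show k' + 1 ≤ k from hlt) h.1) h'.2

theorem lev_exists {K : ℕ} {x : M} {q : ℝ} (h0 : Dp o A δ 0 x q) (hK : ¬ Dp o A δ K x q) :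
    ∃ k < K, lev o A δ k x q := by
  classical
  have hex : ∃ k, ¬ Dp o A δ k x q := ⟨K, hK⟩
  have h1 : Nat.find hex ≠ 0 := fun h => by
    have := Nat.find_spec hex
    rw [h] at this
    exact this h0
  obtain ⟨k, hk⟩ := Nat.exists_eq_succ_of_ne_zero h1
  refine ⟨k, ?_, ?_, ?_⟩
  · have := Nat.find_min' hex hK
    omega
  · by_contra h2
    have := Nat.find_min' hex h2
    omega
  · have := Nat.find_spec hex
    rw [hk] at this
    exact this

/-- The set of positions of colour `m` and label `l`. -/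
def KL (o : M) (A : Set M) (y : ℕ → M) (m : ℕ) (l : ℕ × ℕ) (x : M) : Set ℝ :=
  {r | r ∈ Col 1 (sg o A 1 x) m ∧ lev o A (1 / 2 ^ m) l.1 x r ∧
    (∃ s ≤ r, s < gp o x (y l.2) ∧ lev o A (1 / 2 ^ m) l.1 x s) ∧
    ∀ i < l.2, ¬ ∃ s ≤ r, s < gp o x (y i) ∧ lev o A (1 / 2 ^ m) l.1 x s}

variable {y : ℕ → M}

theorem KL_agree (hT : TL M) (m : ℕ) (l : ℕ × ℕ) (x x' : M) {r : ℝ}
    (hr : r < gp o x x') (h : r ∈ KL o A y m l x) : r ∈ KL o A y m l x' := by
  obtain ⟨h1, h2, ⟨s, hs1, hs2, hs3⟩, h4⟩ := h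
  have hr' : r < gp o x' x := by rw [gp_comm]; exact hr
  refine ⟨col_agree hT o A one_pos x x' m hr h1, lev_agree hT hr h2, ⟨s, hs1, ?_,
    lev_agree hT (lt_of_le_of_lt hs1 hr) hs3⟩, fun i hi hcon => h4 i hi ?_⟩
  · exact lt_of_lt_of_le (lt_min (lt_of_le_of_lt hs1 hr') hs2) (gp_tree hT o x' (y l.2) x)
  · obtain ⟨s', hs1', hs2', hs3'⟩ := hcon
    exact ⟨s', hs1', lt_of_lt_of_le (lt_min (lt_of_le_of_lt hs1' hr) hs2')
      (gp_tree hT o x (y i) x'), lev_agree hT (lt_of_le_of_lt hs1' hr') hs3'⟩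

theorem KL_sep (hT : TL M) (m : ℕ) (l : ℕ × ℕ) (x x' : M) {r r' : ℝ}
    (hr : gp o x x' ≤ r) (hr' : gp o x x' ≤ r') (h : r ∈ KL o A y m l x)
    (h' : r' ∈ KL o A y m l x') : False := by
  obtain ⟨-, h2, ⟨s, hs1, hs2, hs3⟩, -⟩ := h
  obtain ⟨-, h2', ⟨s', hs1', hs2', hs3'⟩, -⟩ := h'
  have key : ∀ (z z' : M) (t t' u : ℝ), gp o z z' ≤ t → gp o z z' ≤ t' →
      lev o A (1 / 2 ^ m) l.1 z t → lev o A (1 / 2 ^ m) l.1 z' t' →
      lev o A (1 / 2 ^ m) l.1 z u → gp o z z' ≤ u := by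
    intro z z' t t' u h1 h2 h3 h4 h5
    by_contra hcon
    push Not at hcon
    refine h5.2 ⟨z, z', t, t', hcon.le.trans h1, hcon.le.trans h2, ?_, hcon, h1, h2, h3.1, h4.1⟩
    rw [gp_self]
    exact lt_of_lt_of_le hcon (gp_le_left o z z')
  have h5 := key x x' r r' s hr hr' h2 h2' hs3
  have h6 := key x' x r' r s' (by rw [gp_comm]; exact hr') (by rw [gp_comm]; exact hr) h2' h2 hs3'
  rw [gp_comm] at h6
  have h7 := gp_tree hT o x x' (y l.2)
  rw [gp_comm o (y l.2) x'] at h7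
  have h8 := lt_min (lt_of_le_of_lt h5 hs2) (lt_of_le_of_lt h6 hs2')
  linarith

theorem KL_sub (m : ℕ) (l : ℕ × ℕ) (x : M) : KL o A y m l x ⊆ Ico 0 (dist x o) := by
  rintro r ⟨⟨n, -, h1, h2, -⟩, -⟩
  exact ⟨(sg_nonneg o A 1 x n).trans h1, lt_of_lt_of_le h2 (sg_le o A 1 x (n + 1))⟩

theorem col_disj {D : ℝ} (hD : 0 < D) {σ : ℕ → ℝ} (hmono : Monotone σ) {m m' : ℕ} (hne : m ≠ m')
    {r : ℝ} (h : r ∈ Col D σ m) (h' : r ∈ Col D σ m') : False := by
  obtain ⟨n, hnm, h1, h2, h3, h4⟩ := h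
  obtain ⟨n', hnm', h1', h2', h3', h4'⟩ := h'
  have hnn : n = n' := by
    rcases lt_trichotomy n n' with hlt | heq | hlt
    · exact absurd (hmono (show n + 1 ≤ n' from hlt)) (by linarith)
    · exact heq
    · exact absurd (hmono (show n' + 1 ≤ n from hlt)) (by linarith)
  subst hnn
  rcases lt_trichotomy m m' with hlt | heq | hlt
  · rcases h4' with h7 | h7
    · omega
    · have h8 : D / 2 ^ m' ≤ D / 2 ^ (m + 1) := anti hD hlt
      have h9 := half_pow (D := D) m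
      linarith
  · exact hne heq
  · rcases h4 with h7 | h7
    · omega
    · have h8 : D / 2 ^ m ≤ D / 2 ^ (m' + 1) := anti hD hlt
      have h9 := half_pow (D := D) m'
      linarith

theorem KL_disj (hT : TL M) (x : M) {p q : ℕ × (ℕ × ℕ)} (hne : p ≠ q) {r : ℝ}
    (h : r ∈ KL o A y p.1 p.2 x) (h' : r ∈ KL o A y q.1 q.2 x) : False := by
  obtain ⟨m, k, i⟩ := p
  obtain ⟨m', k', i'⟩ := q
  obtain ⟨h1, h2, h3, h4⟩ := h
  obtain ⟨h1', h2', h3', h4'⟩ := h'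
  simp only at h1 h2 h3 h4 h1' h2' h3' h4'
  by_cases hm : m = m'
  · subst hm
    have hk := lev_unique hT h2 h2'
    subst hk
    rcases lt_trichotomy i i' with hlt | heq | hlt
    · exact h4' i hlt h3
    · subst heq; exact hne rfl
    · exact h4 i' hlt h3'
  · exact col_disj one_pos (sg_mono o A one_pos x) hm h1 h1'

/-- For one path and one level there is only one label. -/
theorem KL_unique (x : M) {m k i i' : ℕ} {r r' : ℝ}
    (h : r ∈ KL o A y m (k, i) x) (h' : r' ∈ KL o A y m (k, i') x) : i = i' := by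
  have key : ∀ {i i' : ℕ} {r r' : ℝ}, r ≤ r' → r ∈ KL o A y m (k, i) x →
      r' ∈ KL o A y m (k, i') x → i = i' := by
    intro i i' r r' hrr h h'
    obtain ⟨h1, h2, h3, h4⟩ := h
    obtain ⟨h1', h2', h3', h4'⟩ := h'
    simp only at h2 h3 h4 h2' h3' h4'
    have hup : ∀ j, (∃ s ≤ r, s < gp o x (y j) ∧ lev o A (1 / 2 ^ m) k x s) →
        ∃ s ≤ r', s < gp o x (y j) ∧ lev o A (1 / 2 ^ m) k x s := by
      rintro j ⟨s, hs1, hs2⟩
      exact ⟨s, hs1.trans hrr, hs2⟩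
    have hdn : ∀ j, (∃ s ≤ r', s < gp o x (y j) ∧ lev o A (1 / 2 ^ m) k x s) →
        ∃ s ≤ r, s < gp o x (y j) ∧ lev o A (1 / 2 ^ m) k x s := by
      rintro j ⟨s, hs1, hs2, hs3⟩
      rcases le_total s r with hsr | hsr
      · exact ⟨s, hsr, hs2, hs3⟩
      · exact ⟨r, le_rfl, lt_of_le_of_lt hsr hs2, h2⟩
    rcases lt_trichotomy i i' with hlt | heq | hlt
    · exact absurd (hup i h3) (h4' i hlt)
    · exact heq
    · exact absurd (hdn i' h3') (h4 i' hlt)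
  rcases le_total r r' with hrr | hrr
  · exact key hrr h h'
  · exact (key hrr h' h).symm

/-- A path has few labels of one colour. -/
theorem KL_supp (hT : TL M) {m K : ℕ} (hK : ∀ x q, 0 ≤ q → ¬ Dp o A (1 / 2 ^ m) K x q) (x : M) :
    ∃ S : Finset (ℕ × ℕ), S.card ≤ K ∧ ∀ l, l ∉ S → KL o A y m l x = ∅ := by
  classical
  let ι : ℕ → ℕ := fun k => if h : ∃ i r, r ∈ KL o A y m (k, i) x then h.choose else 0
  refine ⟨(Finset.range K).image fun k => (k, ι k), (Finset.card_image_le).trans (by simp),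
    fun l hl => ?_⟩
  rw [Set.eq_empty_iff_forall_notMem]
  intro r hr
  obtain ⟨k, i⟩ := l
  apply hl
  have hkK : k < K := by
    by_contra hcon
    push Not at hcon
    exact hK x r (KL_sub m _ x hr).1 (Dp_le hT hcon hr.2.1.1)
  have hex : ∃ i r, r ∈ KL o A y m (k, i) x := ⟨i, r, hr⟩
  have h1 : ι k = hex.choose := by
    simp only [ι]
    rw [dif_pos hex]
  obtain ⟨r', hr'⟩ := hex.choose_spec
  rw [← h1] at hr'
  have h2 := KL_unique x hr hr'
  rw [Finset.mem_image]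
  exact ⟨k, Finset.mem_range.2 hkK, by rw [h2]⟩

theorem KL_cover (hT : TL M) {m K : ℕ} (hK : ∀ x q, 0 ≤ q → ¬ Dp o A (1 / 2 ^ m) K x q)
    (hy : ∀ z ∈ A, ∀ ε : ℝ, 0 < ε → ∃ i, dist z (y i) < ε) (x : M) {r : ℝ}
    (h : r ∈ Col 1 (sg o A 1 x) m) : ∃ l, r ∈ KL o A y m l x := by
  classical
  have hc := h
  obtain ⟨n, hnm, h1, h2, -⟩ := h
  have hr0 : 0 ≤ r := (sg_nonneg o A 1 x n).trans h1
  obtain ⟨z, hz, h5, h6⟩ := sg_wit hr0 h2
  have h9 : (1 : ℝ) / 2 ^ m ≤ 1 / 2 ^ n := anti one_pos hnm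
  have hD0 : Dp o A (1 / 2 ^ m) 0 x r := ⟨z, hz, h5, by linarith⟩
  obtain ⟨k, hkK, hk⟩ := lev_exists hD0 (hK x r hr0)
  have hex : ∃ i, ∃ s ≤ r, s < gp o x (y i) ∧ lev o A (1 / 2 ^ m) k x s := by
    obtain ⟨i, hi⟩ := hy z hz (1 / 2 ^ m) (by positivity)
    refine ⟨i, r, le_rfl, ?_, hk⟩
    have h7 : r < gp o z (y i) := by
      unfold gp
      have h8 := dist_triangle z (y i) o
      linarith
    exact lt_of_lt_of_le (lt_min h5 h7) (gp_tree hT o x (y i) z)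
  exact ⟨(k, Nat.find hex), hc, hk, Nat.find_spec hex, fun i hi => Nat.find_min hex hi⟩

theorem meas_lev (hT : TL M) (k : ℕ) (x : M) : MeasurableSet {r | lev o A δ k x r} :=
  (Set.ordConnected_iff.2 fun _ hs _ hr _ _ hq => lev_conv hT hs hr hq.1 hq.2).measurableSet

theorem meas_up (k : ℕ) (x : M) (z : M) :
    MeasurableSet {r | ∃ s ≤ r, s < gp o x z ∧ lev o A δ k x s} := by
  refine Set.OrdConnected.measurableSet ⟨?_⟩
  rintro r ⟨s, hs1, hs2⟩ r' - q ⟨hq1, -⟩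
  exact ⟨s, hs1.trans hq1, hs2⟩

theorem meas_KL (hT : TL M) (m : ℕ) (l : ℕ × ℕ) (x : M) : MeasurableSet (KL o A y m l x) := by
  refine (meas_Col 1 _ m).inter ((meas_lev hT l.1 x).inter
    ((meas_up l.1 x (y l.2)).inter ?_))
  have h : {r : ℝ | ∀ i < l.2, ¬ ∃ s ≤ r, s < gp o x (y i) ∧ lev o A (1 / 2 ^ m) l.1 x s} =
      ⋂ i ∈ Set.Iio l.2, {r : ℝ | ∃ s ≤ r, s < gp o x (y i) ∧
        lev o A (1 / 2 ^ m) l.1 x s}ᶜ := by
    ext r
    simp only [Set.mem_ofPred_eq, Set.mem_iInter, Set.mem_Iio, Set.mem_compl_iff]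
  change MeasurableSet {r : ℝ | ∀ i < l.2, ¬ ∃ s ≤ r, s < gp o x (y i) ∧
    lev o A (1 / 2 ^ m) l.1 x s}
  rw [h]
  exact MeasurableSet.biInter (Set.to_countable _) fun i _ => (meas_up l.1 x (y i)).compl

end

end Pool.Agent.Helper84.TR
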