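import Pool.Agent.Helper84.TR.Tree
import Pool.Agent.Helper85.TS.EmbA

/-! Totally bounded trees embed in the sum of the spaces `ℓ_1^N`. -/

namespace Pool.Agent.Helper84.TR

open MeasureTheory Set ENNReal Pool.Agent.Helper85.TS

/-- The sum of the spaces `ℓ_1^N`. -/
abbrev FT : Type := lp (fun N : ℕ => PiLp 1 (fun _ : Fin N => ℝ)) 2

/-- The host space for totally bounded trees. -/
abbrev ET : Type := lp (fun _ : ℕ => FT) 2

section

variable {N : ℕ → ℕ}

theorem sum_vol {a b : ℝ} (hab : a ≤ b) {S : ∀ m, Fin (N m) → Set ℝ}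
    (hmeas : ∀ m j, MeasurableSet (S m j)) (hsub : ∀ m j, S m j ⊆ Ico a b)
    (hdisj : ∀ p q : Σ m, Fin (N m), p ≠ q → Disjoint (S p.1 p.2) (S q.1 q.2)) (s : Finset ℕ) :
    ∑ m ∈ s, ∑ j, volume.real (S m j) ≤ b - a := by
  classical
  have h1 : ∑ m ∈ s, ∑ j, volume.real (S m j) =
      ∑ p ∈ s.sigma (fun m => (Finset.univ : Finset (Fin (N m)))), volume.real (S p.1 p.2) := by
    rw [Finset.sum_sigma]
  have hfin : ∀ m j, volume (S m j) ≠ ∞ := fun m j =>
    ne_top_of_le_ne_top (measure_Ico_lt_top (a := a) (b := b)).ne (measure_mono (hsub m j))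
  rw [h1, ← measureReal_biUnion_finset (f := fun p : Σ m, Fin (N m) => S p.1 p.2)
    (fun p _ q _ hpq => hdisj p q hpq) (fun p _ => hmeas p.1 p.2) (fun p _ => hfin p.1 p.2)]
  rw [← Real.volume_real_Ico_of_le hab]
  refine measureReal_mono ?_ (measure_Ico_lt_top).ne
  exact iUnion₂_subset fun p _ => hsub p.1 p.2

end

section

variable {M : Type*} [MetricSpace M] (o : M) (A : Set M) {N : ℕ → ℕ} (y : ∀ m, Fin (N m) → M)

/-- The coordinates of a point in the block `m`. -/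
noncomputable def vc (x : M) (m : ℕ) : PiLp 1 (fun _ : Fin (N m) => ℝ) :=
  WithLp.toLp 1 fun j => volume.real (KK o A 1 y m j x)

variable {o A y}

theorem vc_norm (x : M) (m : ℕ) :
    ‖vc o A y x m‖ = ∑ j, volume.real (KK o A 1 y m j x) := by
  rw [PiLp.norm_eq_of_L1]
  refine Finset.sum_congr rfl fun j _ => ?_
  exact Real.norm_of_nonneg measureReal_nonneg

theorem fin_KK (m : ℕ) (j : Fin (N m)) (x : M) : volume (KK o A 1 y m j x) ≠ ∞ :=
  ne_top_of_le_ne_top (measure_Ico_lt_top (a := 0) (b := dist x o)).ne (measure_mono (KK_sub m j x))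

theorem vol_sub (hT : TL M) (x x' : M) (m : ℕ) (j : Fin (N m)) :
    |volume.real (KK o A 1 y m j x) - volume.real (KK o A 1 y m j x')| =
      volume.real (KK o A 1 y m j x ∩ Ici (gp o x x')) +
      volume.real (KK o A 1 y m j x' ∩ Ici (gp o x x')) := by
  have h1 : KK o A 1 y m j x \ Ici (gp o x x') = KK o A 1 y m j x' \ Ici (gp o x x') := by
    ext r
    simp only [Set.mem_sdiff, mem_Ici, not_le]
    refine ⟨fun h => ⟨KK_agree hT one_pos m j x x' h.2 h.1, h.2⟩,
      fun h => ⟨KK_agree hT one_pos m j x' x (by rw [gp_comm]; exact h.2) h.1, h.2⟩⟩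
  have h2 := measureReal_inter_add_sdiff (μ := volume) (s := KK o A 1 y m j x)
    (measurableSet_Ici (a := gp o x x')) (fin_KK m j x)
  have h3 := measureReal_inter_add_sdiff (μ := volume) (s := KK o A 1 y m j x')
    (measurableSet_Ici (a := gp o x x')) (fin_KK m j x')
  rw [← h2, ← h3, h1, add_sub_add_right_eq_sub]
  rcases (KK o A 1 y m j x ∩ Ici (gp o x x')).eq_empty_or_nonempty with h4 | ⟨r, hr1, hr2⟩
  · rw [h4, measureReal_empty, zero_sub, abs_neg, zero_add, abs_of_nonneg measureReal_nonneg]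
  · have h5 : KK o A 1 y m j x' ∩ Ici (gp o x x') = ∅ := by
      rw [Set.eq_empty_iff_forall_notMem]
      rintro s ⟨hs1, hs2⟩
      exact KK_sep hT m j x x' hr2 hs2 hr1 hs1
    rw [h5, measureReal_empty, sub_zero, add_zero, abs_of_nonneg measureReal_nonneg]

theorem vc_sub (hT : TL M) (x x' : M) (m : ℕ) :
    ‖vc o A y x m - vc o A y x' m‖ =
      ∑ j, volume.real (KK o A 1 y m j x ∩ Ici (gp o x x')) +
      ∑ j, volume.real (KK o A 1 y m j x' ∩ Ici (gp o x x')) := by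
  rw [PiLp.norm_eq_of_L1, ← Finset.sum_add_distrib]
  exact Finset.sum_congr rfl fun j _ => vol_sub hT x x' m j

theorem sum_vc (x : M) (s : Finset ℕ) : ∑ m ∈ s, ‖vc o A y x m‖ ≤ dist x o := by
  simp only [vc_norm]
  refine (sum_vol dist_nonneg (fun m j => meas_KK m j x) (fun m j => KK_sub m j x)
    (fun p q hpq => ?_) s).trans (by rw [sub_zero])
  rw [Set.disjoint_left]
  intro r h1 h2
  exact KK_disj one_pos x (m := p.1) (j := p.2) (m' := q.1) (j' := q.2) hpq h1 h2

theorem sum_half (x : M) {a : ℝ} (ha : a ≤ dist x o) (s : Finset ℕ) :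
    ∑ m ∈ s, ∑ j, volume.real (KK o A 1 y m j x ∩ Ici a) ≤ dist x o - a := by
  refine sum_vol ha (fun m j => (meas_KK m j x).inter measurableSet_Ici)
    (fun m j => ?_) (fun p q hpq => ?_) s
  · rintro r ⟨h1, h2⟩
    exact ⟨h2, (KK_sub m j x h1).2⟩
  · rw [Set.disjoint_left]
    rintro r ⟨h1, -⟩ ⟨h2, -⟩
    exact KK_disj one_pos x (m := p.1) (j := p.2) (m' := q.1) (j' := q.2) hpq h1 h2

theorem sum_vc_sub (hT : TL M) (x x' : M) (s : Finset ℕ) :
    ∑ m ∈ s, ‖vc o A y x m - vc o A y x' m‖ ≤ dist x x' := by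
  simp only [vc_sub hT, Finset.sum_add_distrib]
  have h1 := sum_half (o := o) (A := A) (y := y) x (gp_le_left o x x') s
  have h2 := sum_half (o := o) (A := A) (y := y) x' (gp_le_right o x x') s
  have h3 : (dist x o - gp o x x') + (dist x' o - gp o x x') = dist x x' := by
    unfold gp
    ring
  linarith

theorem vc_lower (hT : TL M) (hy : ∀ m, ∀ z ∈ A, ∃ j, dist z (y m j) < 1 / 2 ^ m) {x : M}
    (hx : x ∈ A) (x' : M) (h : gp o x x' < dist x o) :
    ∃ m, (dist x o - gp o x x') / 16 ≤ ‖vc o A y x m - vc o A y x' m‖ := by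
  classical
  obtain ⟨m, u, v, h1, h2, h3, h4⟩ := window (D := 1) one_pos (sg_mono o A one_pos x) rfl
    (sg_le o A 1 x) (sg_ge o one_pos hx) (gp_nonneg o x x') h
  refine ⟨m, ?_⟩
  rw [vc_sub hT]
  have h5 : Ioo u v ⊆ ⋃ j ∈ (Finset.univ : Finset (Fin (N m))),
      (KK o A 1 y m j x ∩ Ici (gp o x x')) := by
    intro r hr
    obtain ⟨j, hj⟩ := KK_cover hT one_pos hy x (h4 r hr.1 hr.2)
    exact mem_iUnion₂.2 ⟨j, Finset.mem_univ j, hj, h1.trans hr.1.le⟩
  have hfin : volume (⋃ j ∈ (Finset.univ : Finset (Fin (N m))),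
      (KK o A 1 y m j x ∩ Ici (gp o x x'))) ≠ ∞ := by
    refine ne_top_of_le_ne_top (measure_Ico_lt_top (a := 0) (b := dist x o)).ne
      (measure_mono (iUnion₂_subset fun j _ => ?_))
    exact inter_subset_left.trans (KK_sub m j x)
  have h6 := (measureReal_mono h5 hfin).trans (measureReal_biUnion_finset_le (μ := volume)
    Finset.univ fun j => KK o A 1 y m j x ∩ Ici (gp o x x'))
  have huv : u ≤ v := by linarith
  rw [Real.volume_real_Ioo_of_le huv] at h6
  have h7 : 0 ≤ ∑ j, volume.real (KK o A 1 y m j x' ∩ Ici (gp o x x')) :=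
    Finset.sum_nonneg fun j _ => measureReal_nonneg
  linarith

theorem sq_sum (s : Finset ℕ) {E : ℕ → Type*} [∀ i, NormedAddCommGroup (E i)] (v : ∀ i, E i)
    {C : ℝ} (h : ∑ m ∈ s, ‖v m‖ ≤ C) : ∑ m ∈ s, ‖v m‖ ^ (2 : ℝ≥0∞).toReal ≤
      C ^ (2 : ℝ≥0∞).toReal := by
  simp only [ENNReal.toReal_ofNat, Real.rpow_ofNat]
  refine (Finset.sum_sq_le_sq_sum_of_nonneg fun i _ => norm_nonneg _).trans ?_
  exact pow_le_pow_left₀ (Finset.sum_nonneg fun i _ => norm_nonneg _) h 2

/-- Totally bounded trees. -/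
theorem embT (hT : TL M) (o : M) {A : Set M} (hA : TotallyBounded A) :
    ∃ f : M → ET, (∀ x ∈ A, ∀ z ∈ A, 1 / 32 * dist x z ≤ ‖f x - f z‖) ∧
      (∀ x ∈ A, ∀ z ∈ A, ‖f x - f z‖ ≤ 1 * dist x z) ∧ ∀ x, ‖f x‖ ≤ dist x o := by
  classical
  have hnet : ∀ m : ℕ, ∃ (N : ℕ) (y : Fin N → M), ∀ z ∈ A, ∃ j, dist z (y j) < 1 / 2 ^ m := by
    intro m
    obtain ⟨t, ht, hAt⟩ := Metric.totallyBounded_iff.1 hA (1 / 2 ^ m) (by positivity)
    let T := ht.toFinset
    refine ⟨T.card, fun j => (T.equivFin.symm j).1, fun z hz => ?_⟩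
    obtain ⟨w, hw, hzw⟩ := mem_iUnion₂.1 (hAt hz)
    refine ⟨T.equivFin ⟨w, ht.mem_toFinset.2 hw⟩, ?_⟩
    change dist z (T.equivFin.symm (T.equivFin ⟨w, ht.mem_toFinset.2 hw⟩)).1 < 1 / 2 ^ m
    rw [Equiv.symm_apply_apply]
    exact hzw
  choose N y hy using hnet
  let γ : M → ℕ → FT := fun x m => lp.single 2 (N m) (vc o A y x m)
  have hγ0 : ∀ x m, ‖γ x m‖ = ‖vc o A y x m‖ := fun x m => lp.norm_single (by norm_num) _ _
  have hγ1 : ∀ x z m, ‖γ x m - γ z m‖ = ‖vc o A y x m - vc o A y z m‖ := by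
    intro x z m
    simp only [γ]
    rw [← lp.single_sub, lp.norm_single (by norm_num)]
  have hmem : ∀ (x : M) (s : Finset ℕ), ∑ m ∈ s, ‖γ x m‖ ^ (2 : ℝ≥0∞).toReal ≤
      dist x o ^ (2 : ℝ≥0∞).toReal := fun x s => sq_sum s (γ x) (by
    simp only [hγ0]; exact sum_vc x s)
  let f : M → ET := fun x => ⟨γ x, memℓp_gen' (hmem x)⟩
  have hf : ∀ x z m, (f x - f z) m = γ x m - γ z m := fun x z m => rfl
  have hlow : ∀ x ∈ A, ∀ z, gp o x z < dist x o → (dist x o - gp o x z) / 16 ≤ ‖f x - f z‖ := by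
    intro x hx z h
    obtain ⟨m, hm⟩ := vc_lower hT hy hx z h
    refine hm.trans ?_
    rw [← hγ1, ← hf]
    exact lp.norm_apply_le_norm (by norm_num) (f x - f z) m
  refine ⟨f, fun x hx z hz => ?_, fun x _ z _ => ?_, fun x => ?_⟩
  · rcases eq_or_ne x z with rfl | hxz
    · rw [dist_self, mul_zero]; exact norm_nonneg _
    · have hd : 0 < dist x z := dist_pos.2 hxz
      have h3 : (dist x o - gp o x z) + (dist z o - gp o x z) = dist x z := by
        unfold gp
        ring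
      rcases le_total (dist z o) (dist x o) with h | h
      · have := hlow x hx z (by linarith)
        linarith
      · have := hlow z hz x (by rw [gp_comm]; linarith)
        rw [gp_comm, norm_sub_rev] at this
        linarith
  · rw [one_mul]
    refine lp.norm_le_of_forall_sum_le (by norm_num) dist_nonneg fun s => ?_
    refine sq_sum s _ ?_
    simp only [hf, hγ1]
    exact sum_vc_sub hT x z s
  · exact lp.norm_le_of_forall_sum_le (by norm_num) dist_nonneg fun s => hmem x s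

end

end Pool.Agent.Helper84.TR
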