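import Pool.Agent.Helper84.TR.Rank

/-! The host spaces of trees of countable rank. -/

namespace Pool.Agent.Helper84.TR

open MeasureTheory Set ENNReal Pool.Agent.Helper85.TS

section

variable {W : Type} [LinearOrder W] [WellFoundedLT W]

/-- The host for branches in which no location is full. -/
def HostLT (E : Bn) (w : W) : Prop :=
  ∀ (d : Dat) (x₀ : d.M) (e : ℝ), (∀ x, e < gp d.o x x₀ → ∀ q, e < q →
    ¬ Full d.o d.A d.δ w x q) → ∃ G : d.M → E.X, d.Good G x₀ e

/-- The host for branches in which no location is deep. -/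
def HostLE (E : Bn) (w : W) : Prop :=
  ∀ (d : Dat) (x₀ : d.M) (e : ℝ), (∀ x, e < gp d.o x x₀ → ∀ q, e < q →
    ¬ Deep d.o d.A d.δ w x q) → ∃ G : d.M → E.X, d.Good G x₀ e

theorem lt_step {ι : Type} [Countable ι] (ρ : ι → W) (E : ι → Bn)
    (hE : ∀ i, HostLE (E i) (ρ i)) (d : Dat) (x₀ : d.M) (e : ℝ)
    (h : ∀ q, e < q → q < dist x₀ d.o → ∃ i, ¬ Deep d.o d.A d.δ (ρ i) x₀ q) :
    ∃ G : d.M → (Bn.sum (fun p : ι × ℕ => E p.1)).X, d.Good G x₀ e := by
  have hT := d.hT
  refine d.step E (fun x => gp d.o x x₀) (fun x hx => ⟨hx.le, gp_le_left _ _ _⟩) ?_ ?_ ?_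
  · intro x x' hx hx' hlt
    refine le_antisymm ?_ ?_
    · by_contra hcon
      push Not at hcon
      have h1 := gp_tree hT d.o x x₀ x'
      have h2 := lt_min hlt hcon
      linarith
    · have h1 := gp_tree hT d.o x' x₀ x
      rw [gp_comm d.o x' x] at h1
      exact (le_min hlt.le le_rfl).trans h1
  · intro x x' hx hx'
    have h1 := gp_tree hT d.o x x' x₀
    rw [gp_comm d.o x₀ x'] at h1
    exact h1
  · rintro x ⟨hx, -⟩
    obtain ⟨c, hc⟩ : ∃ c, c = (e + gp d.o x x₀) / 2 := ⟨_, rfl⟩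
    have hc1 : e < c := by linarith
    have hc2 : c < gp d.o x x₀ := by linarith
    obtain ⟨i, hi⟩ := h c hc1 (lt_of_lt_of_le hc2 (gp_le_right _ _ _))
    obtain ⟨G, hG⟩ := hE i d x (gp d.o x x₀) fun x' hx' q hq hdeep => by
      refine hi (deep_mono hT hdeep (by linarith) ?_)
      have h1 := gp_tree hT d.o x₀ x' x
      rw [gp_comm d.o x₀ x, gp_comm d.o x x'] at h1
      exact lt_of_lt_of_le (lt_min hc2 (by linarith)) h1
    exact ⟨i, G, hG⟩

theorem le_of_lt_host {E : Bn} {w : W} (hE : HostLT E w) :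
    HostLE (Bn.sum (fun _ : Unit × ℕ => E)) w := by
  classical
  intro d x₀ e h
  have hT := d.hT
  let S : d.M → Set ℝ := fun x => insert e {q | e < q ∧ Full d.o d.A d.δ w x q}
  have hS0 : ∀ x, e ∈ S x := fun x => mem_insert _ _
  have hS1 : ∀ x q, e < q → Full d.o d.A d.δ w x q → q ∈ S x := fun x q h1 h2 =>
    mem_insert_of_mem _ ⟨h1, h2⟩
  have hSb : ∀ x, e < gp d.o x x₀ → ∀ q ∈ S x, q ≤ dist x d.o := by
    intro x hx q hq
    rcases hq with rfl | ⟨-, hq⟩
    · exact hx.le.trans (gp_le_left _ _ _)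
    · exact (base_lt hq.1).le
  have hbd : ∀ x, e < gp d.o x x₀ → BddAbove (S x) := fun x hx => ⟨_, hSb x hx⟩
  let f : d.M → ℝ := fun x => sSup (S x)
  have hf1 : ∀ x, e < gp d.o x x₀ → ∀ q ∈ S x, q ≤ f x := fun x hx q hq =>
    le_csSup (hbd x hx) hq
  have hfe : ∀ x, e < gp d.o x x₀ → e ≤ f x := fun x hx => hf1 x hx e (hS0 x)
  have hf2 : ∀ x, e < gp d.o x x₀ → ∀ c, e < c → c < f x →
      ∃ q, c < q ∧ Full d.o d.A d.δ w x q := by
    intro x hx c hc hcf
    obtain ⟨q, hq, hcq⟩ := exists_lt_of_lt_csSup ⟨e, hS0 x⟩ hcf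
    rcases hq with rfl | ⟨-, hq⟩
    · exact absurd hcq (not_lt.2 hc.le)
    · exact ⟨q, hcq, hq⟩
  -- a full location above the end of the spine
  have hno : ∀ x x', e < gp d.o x x₀ → f x < gp d.o x x' → ∀ q, f x < q →
      ¬ Full d.o d.A d.δ w x' q := by
    intro x x' hx hlt q hq hfull
    have hfx := hfe x hx
    obtain ⟨c, hc⟩ : ∃ c, c = (f x + min q (gp d.o x x')) / 2 := ⟨_, rfl⟩
    have hm : f x < min q (gp d.o x x') := lt_min hq hlt
    have h1 := min_le_left q (gp d.o x x')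
    have h2 := min_le_right q (gp d.o x x')
    have hc1 : f x < c := by linarith
    have h3 : Full d.o d.A d.δ w x' c := full_self hT hfull (by linarith)
    have h4 : Full d.o d.A d.δ w x c := full_mono hT h3 le_rfl (by linarith)
    have h5 := hf1 x hx c (hS1 x c (by linarith) h4)
    linarith
  refine d.step (fun _ : Unit => E) f (fun x hx => ⟨hfe x hx, csSup_le ⟨e, hS0 x⟩ (hSb x hx)⟩)
    ?_ ?_ ?_
  · intro x x' hx hx' hlt
    refine le_antisymm ?_ ?_
    · refine csSup_le ⟨e, hS0 x'⟩ fun q hq => ?_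
      rcases hq with rfl | ⟨-, hq⟩
      · exact hfe x hx
      · by_contra hcon
        push Not at hcon
        exact hno x x' hx hlt q hcon hq
    · refine csSup_le ⟨e, hS0 x⟩ fun q hq => ?_
      have hqf := hf1 x hx q hq
      rcases hq with rfl | ⟨hq1, hq2⟩
      · exact hfe x' hx'
      · refine hf1 x' hx' q (hS1 x' q hq1 (full_mono hT hq2 le_rfl ?_))
        rw [gp_comm]
        exact lt_of_le_of_lt hqf hlt
  · intro x x' hx hx'
    by_contra hcon
    push Not at hcon
    obtain ⟨h1, h2⟩ := lt_min_iff.1 hcon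
    have hea : e < gp d.o x x' := by
      have := gp_tree hT d.o x x' x₀
      rw [gp_comm d.o x₀ x'] at this
      exact lt_of_lt_of_le (lt_min hx hx') this
    obtain ⟨q, hq1, hq2⟩ := hf2 x hx _ hea h1
    obtain ⟨q', hq1', hq2'⟩ := hf2 x' hx' _ hea h2
    obtain ⟨c, hc⟩ : ∃ c, c = (e + gp d.o x x') / 2 := ⟨_, rfl⟩
    exact h x hx c (by linarith) (deep_of_pair hT hq2 hq2' hq1.le hq1'.le (by linarith))
  · rintro x ⟨hx, -⟩
    obtain ⟨G, hG⟩ := hE d x (f x) fun x' hx' q hq =>
      hno x x' hx (by rw [gp_comm]; exact hx') q hq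
    exact ⟨(), G, hG⟩

theorem exists_hosts [Countable W] (w : W) :
    (∃ E : Bn, HostLT E w) ∧ ∃ E : Bn, HostLE E w := by
  classical
  induction w using WellFoundedLT.induction with
  | ind w ih =>
    have h1 : ∃ E : Bn, HostLT E w := by
      by_cases hw : ∃ v, v < w
      · obtain ⟨v₀, hv₀⟩ := hw
        have h2 : ∀ v : {v : W // v < w}, ∃ E : Bn, HostLE E v.1 := fun v => (ih v.1 v.2).2
        choose E hE using h2
        refine ⟨Bn.sum (fun p : {v : W // v < w} × ℕ => E p.1), fun d x₀ e h => ?_⟩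
        refine lt_step (fun v : {v : W // v < w} => v.1) E hE d x₀ e fun q hq hq2 => ?_
        have h3 := h x₀ (by rw [gp_self]; linarith) q hq
        by_cases hb : Base d.o d.A d.δ x₀ q
        · by_contra hcon
          push Not at hcon
          exact h3 ⟨hb, fun v hv => hcon ⟨v, hv⟩⟩
        · refine ⟨⟨v₀, hv₀⟩, fun hd => hb ?_⟩
          rw [deep_iff] at hd
          exact hd.1
      · push Not at hw
        refine ⟨Bn.line, fun d x₀ e h => ⟨fun _ => 0, ?_, ?_⟩⟩
        · intro x hx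
          have h2 : d.K x ∩ Ioi e = ∅ := by
            rw [Set.eq_empty_iff_forall_notMem]
            rintro r ⟨hr1, hr2⟩
            exact h x hx r hr2 ⟨d.K4 x r hr1, fun v hv => absurd hv (not_lt.2 (hw v))⟩
          rw [h2, measureReal_empty, norm_zero]
        · intro x x' hx hx'
          have hea : e < gp d.o x x' := by
            have := gp_tree d.hT d.o x x' x₀
            rw [gp_comm d.o x₀ x'] at this
            exact lt_of_lt_of_le (lt_min hx hx') this
          have h2 : ∀ z, e < gp d.o z x₀ → d.K z ∩ Ici (gp d.o x x') = ∅ := by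
            intro z hz
            rw [Set.eq_empty_iff_forall_notMem]
            rintro r ⟨hr1, hr2⟩
            exact h z hz r (lt_of_lt_of_le hea hr2)
              ⟨d.K4 z r hr1, fun v hv => absurd hv (not_lt.2 (hw v))⟩
          rw [h2 x hx, h2 x' hx', measureReal_empty, sub_zero, norm_zero, add_zero]
          exact ⟨le_rfl, le_rfl⟩
    obtain ⟨E, hE⟩ := h1
    exact ⟨⟨E, hE⟩, _, le_of_lt_host hE⟩

/-- The host of all trees of rank `W`. -/
theorem exists_host (W : Type) [LinearOrder W] [WellFoundedLT W] [Countable W] :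
    ∃ E : Bn, ∀ (d : Dat) (x₀ : d.M), (∀ x q, ∃ w : W, ¬ Deep d.o d.A d.δ w x q) →
      ∃ G : d.M → E.X, d.Good G x₀ (-1) := by
  have h2 : ∀ v : W, ∃ E : Bn, HostLE E v := fun v => (exists_hosts v).2
  choose E hE using h2
  refine ⟨Bn.sum (fun p : W × ℕ => E p.1), fun d x₀ h => ?_⟩
  exact lt_step (fun v : W => v) E hE d x₀ (-1) fun q _ _ => h x₀ q

end

end Pool.Agent.Helper84.TR
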