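import Mathlib

/-! Colouring of a segment by scales: every window has a long piece of one colour. -/

namespace Pool.Agent.Helper84.TR

/-- The last reset. -/
noncomputable def pch (D : ℝ) (σ : ℕ → ℝ) : ℕ → ℝ
  | 0 => 0
  | n + 1 => if σ (n + 1) - pch D σ n < D / 2 ^ (n + 1) then pch D σ n else σ (n + 1)

/-- The positions of colour `m`. -/
def Col (D : ℝ) (σ : ℕ → ℝ) (m : ℕ) : Set ℝ :=
  {r | ∃ n ≤ m, σ n ≤ r ∧ r < σ (n + 1) ∧ D / 2 ^ m ≤ r - pch D σ n ∧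
    (m = n ∨ r - pch D σ n < 2 * (D / 2 ^ m))}

theorem pch_of_lt {D : ℝ} {σ : ℕ → ℝ} {n : ℕ} (h : σ (n + 1) - pch D σ n < D / 2 ^ (n + 1)) :
    pch D σ (n + 1) = pch D σ n := by
  rw [pch, if_pos h]

theorem pch_of_ge {D : ℝ} {σ : ℕ → ℝ} {n : ℕ} (h : D / 2 ^ (n + 1) ≤ σ (n + 1) - pch D σ n) :
    pch D σ (n + 1) = σ (n + 1) := by
  rw [pch, if_neg (not_lt.2 h)]

theorem pch_le {D : ℝ} {σ : ℕ → ℝ} (hm : Monotone σ) (h0 : σ 0 = 0) (n : ℕ) :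
    pch D σ n ≤ σ n := by
  induction n with
  | zero => rw [pch, h0]
  | succ n ih =>
    rw [pch]
    split_ifs
    · exact ih.trans (hm (Nat.le_succ n))
    · exact le_rfl

theorem pch_congr {D : ℝ} {σ τ : ℕ → ℝ} {n : ℕ} (h : ∀ k ≤ n, σ k = τ k) :
    pch D σ n = pch D τ n := by
  induction n with
  | zero => rfl
  | succ n ih =>
    rw [pch, pch, ih fun k hk => h k (hk.trans (Nat.le_succ n)), h (n + 1) le_rfl]

/-- Stretch without resets. -/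
theorem stretch {D : ℝ} {σ : ℕ → ℝ} {i N : ℕ}
    (h : ∀ n, i ≤ n → n + 1 < N → σ (n + 1) - pch D σ n < D / 2 ^ (n + 1)) {n : ℕ} (hn : i ≤ n)
    (hN : n < N) : pch D σ n = pch D σ i ∧ (i < n → σ n - pch D σ i < D / 2 ^ n) := by
  induction n, hn using Nat.le_induction with
  | base => exact ⟨rfl, fun h => absurd h (lt_irrefl _)⟩
  | succ n hn ih =>
    have h1 := ih (by omega)
    have h2 := h n hn hN
    refine ⟨(pch_of_lt h2).trans h1.1, fun _ => ?_⟩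
    rw [← h1.1]
    exact h2

theorem half_pow {D : ℝ} (n : ℕ) : D / 2 ^ n = 2 * (D / 2 ^ (n + 1)) := by
  rw [pow_succ]
  field_simp

theorem anti {D : ℝ} (hD : 0 < D) {n m : ℕ} (h : n ≤ m) : D / 2 ^ m ≤ D / 2 ^ n := by
  gcongr
  norm_num

theorem ex_small {D : ℝ} (hD : 0 < D) {ε : ℝ} (hε : 0 < ε) : ∃ n : ℕ, D / 2 ^ n < ε := by
  obtain ⟨n, hn⟩ := exists_pow_lt_of_lt_one (show 0 < ε / D by positivity)
    (show (1 / 2 : ℝ) < 1 by norm_num)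
  refine ⟨n, ?_⟩
  rw [lt_div_iff₀ hD] at hn
  calc D / 2 ^ n = (1 / 2) ^ n * D := by rw [one_div, inv_pow]; field_simp
    _ < ε := hn

theorem region {D b : ℝ} (hD : 0 < D) {σ : ℕ → ℝ}
    (hb : ∀ n, b - σ (n + 1) ≤ D / 2 ^ n) {i : ℕ} {r : ℝ} (hi : σ i ≤ r) (hr : r < b) :
    ∃ n, i ≤ n ∧ σ n ≤ r ∧ r < σ (n + 1) := by
  classical
  have hex : ∃ k, r < σ (i + k + 1) := by
    by_contra hcon
    push Not at hcon
    obtain ⟨n, hn⟩ := ex_small hD (sub_pos.2 hr)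
    have h1 := hcon n
    have h2 := hb (i + n)
    have h3 : D / 2 ^ (i + n) ≤ D / 2 ^ n := anti hD (by omega)
    linarith
  refine ⟨i + Nat.find hex, by omega, ?_, Nat.find_spec hex⟩
  rcases Nat.eq_zero_or_pos (Nat.find hex) with h | h
  · rw [h]; exact hi
  · have h1 := Nat.find_min hex (Nat.sub_lt h one_pos)
    rw [show i + (Nat.find hex - 1) + 1 = i + Nat.find hex by omega] at h1
    exact not_lt.1 h1

/-- Windows in a stretch. -/
theorem lemW {D b : ℝ} (hD : 0 < D) {σ : ℕ → ℝ} (hm : Monotone σ)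
    (hb : ∀ n, b - σ (n + 1) ≤ D / 2 ^ n) {i : ℕ} {p u v : ℝ} (hi : σ i ≤ u) (huv : u < v)
    (hvb : v ≤ b) (hp : p ≤ u)
    (h : ∀ n, i ≤ n → σ n < v → pch D σ n = p ∧ (i < n → σ n - p < D / 2 ^ n)) :
    ∃ (m : ℕ) (u' v' : ℝ), u ≤ u' ∧ v' ≤ v ∧ (v - u) / 4 ≤ v' - u' ∧
      ∀ r, u' < r → r < v' → r ∈ Col D σ m := by
  classical
  obtain ⟨c, hc⟩ : ∃ c, c = (u + v) / 2 := ⟨_, rfl⟩
  have huc : u < c := by linarith
  have hcv : c < v := by linarith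
  have hcp : 0 < c - p := by linarith
  have hex : ∃ k : ℕ, D / 2 ^ k ≤ c - p := by
    obtain ⟨n, hn⟩ := ex_small hD hcp
    exact ⟨n, hn.le⟩
  obtain ⟨κ, hκ⟩ : ∃ κ, κ = Nat.find hex := ⟨_, rfl⟩
  have hκ1 : D / 2 ^ κ ≤ c - p := by rw [hκ]; exact Nat.find_spec hex
  have hκ2 : ∀ k, k < κ → c - p < D / 2 ^ k := fun k hk =>
    not_le.1 (Nat.find_min hex (by rw [← hκ]; exact hk))
  obtain ⟨n, hin, hn1, hn2⟩ := region hD hb (hi.trans huc.le) (lt_of_lt_of_le hcv hvb)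
  by_cases hκn : κ ≤ n
  · refine ⟨n, c, v, huc.le, le_rfl, by linarith, fun r hr1 hr2 => ?_⟩
    have hpn : pch D σ n = p := (h n hin (lt_of_le_of_lt hn1 hcv)).1
    refine ⟨n, le_rfl, by linarith, ?_, ?_, Or.inl rfl⟩
    · by_contra hcon
      push Not at hcon
      have h1 := (h (n + 1) (by omega) (by linarith)).2 (by omega)
      have h2 : D / 2 ^ (n + 1) ≤ D / 2 ^ κ := anti hD (by omega)
      linarith
    · rw [hpn]
      have h2 : D / 2 ^ n ≤ D / 2 ^ κ := anti hD hκn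
      linarith
  · push Not at hκn
    obtain ⟨k, rfl⟩ : ∃ k, κ = k + 1 := ⟨κ - 1, by omega⟩
    have hk := hκ2 k (by omega)
    -- the regions in the second half
    have hreg : ∀ r, c < r → r < v → ∃ n' ≤ k, σ n' ≤ r ∧ r < σ (n' + 1) ∧ pch D σ n' = p := by
      intro r hr1 hr2
      obtain ⟨n', hin', hn1', hn2'⟩ := region hD hb (i := i) (r := r) (by linarith) (by linarith)
      refine ⟨n', ?_, hn1', hn2', (h n' hin' (lt_of_le_of_lt hn1' hr2)).1⟩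
      by_contra hcon
      push Not at hcon
      have h1 : n + 1 ≤ n' := by omega
      have h2 : σ (n + 1) ≤ σ n' := hm h1
      have h3 := (h n' hin' (lt_of_le_of_lt hn1' hr2)).2 (by omega)
      have h4 : D / 2 ^ n' ≤ D / 2 ^ (k + 1) := anti hD (by omega)
      linarith
    have hhp := half_pow (D := D) k
    by_cases hs : (c + v) / 2 ≤ p + 2 * (D / 2 ^ (k + 1))
    · refine ⟨k + 1, c, (c + v) / 2, huc.le, by linarith, by linarith, fun r hr1 hr2 => ?_⟩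
      obtain ⟨n', h1, h2, h3, h4⟩ := hreg r hr1 (by linarith)
      refine ⟨n', by omega, h2, h3, ?_, Or.inr ?_⟩
      · rw [h4]; linarith
      · rw [h4]; linarith
    · push Not at hs
      refine ⟨k, (c + v) / 2, v, by linarith, le_rfl, by linarith, fun r hr1 hr2 => ?_⟩
      obtain ⟨n', h1, h2, h3, h4⟩ := hreg r (by linarith) hr2
      refine ⟨n', h1, h2, h3, ?_, Or.inr ?_⟩
      · rw [h4]; linarith
      · rw [h4]; linarith

/-- Every window up to the end has a long piece of one colour. -/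
theorem window {D b : ℝ} (hD : 0 < D) {σ : ℕ → ℝ} (hm : Monotone σ) (h0 : σ 0 = 0)
    (hub : ∀ n, σ n ≤ b) (hb : ∀ n, b - σ (n + 1) ≤ D / 2 ^ n) {a : ℝ} (ha : 0 ≤ a)
    (hab : a < b) :
    ∃ (m : ℕ) (u v : ℝ), a ≤ u ∧ v ≤ b ∧ (b - a) / 16 ≤ v - u ∧
      ∀ r, u < r → r < v → r ∈ Col D σ m := by
  classical
  obtain ⟨i, -, hi1, hi2⟩ := region hD hb (i := 0) (r := a) (by rw [h0]; exact ha) hab
  by_cases hA : ∃ n, i ≤ n ∧ D / 2 ^ (n + 1) ≤ σ (n + 1) - pch D σ n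
  swap
  · push Not at hA
    obtain ⟨m, u, v, h1, h2, h3, h4⟩ := lemW hD hm hb hi1 hab le_rfl
      ((pch_le hm h0 i).trans hi1) fun n hn _ => stretch (N := n + 1) (fun k hk _ => hA k hk) hn
        (Nat.lt_succ_self n)
    exact ⟨m, u, v, h1, h2, by linarith, h4⟩
  obtain ⟨n₁, hn₁⟩ : ∃ n₁, n₁ = Nat.find hA := ⟨_, rfl⟩
  have hs1 : i ≤ n₁ ∧ D / 2 ^ (n₁ + 1) ≤ σ (n₁ + 1) - pch D σ n₁ := by
    rw [hn₁]; exact Nat.find_spec hA
  have hmin1 : ∀ k, i ≤ k → k < n₁ → σ (k + 1) - pch D σ k < D / 2 ^ (k + 1) := by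
    intro k hk hk1
    have h1 := Nat.find_min hA (m := k) (by rw [← hn₁]; exact hk1)
    by_contra h2
    exact h1 ⟨hk, not_lt.1 h2⟩
  have hp1 : pch D σ (n₁ + 1) = σ (n₁ + 1) := pch_of_ge hs1.2
  have har : a < σ (n₁ + 1) := lt_of_lt_of_le hi2 (hm (by omega))
  by_cases hbig : (b - a) / 4 ≤ σ (n₁ + 1) - a
  · obtain ⟨m, u, v, h1, h2, h3, h4⟩ := lemW hD hm hb hi1 har (hub _)
      ((pch_le hm h0 i).trans hi1) fun n hn hnv => stretch (N := n₁ + 1)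
        (fun k hk hk1 => hmin1 k hk (by omega)) hn (hm.reflect_lt hnv)
    exact ⟨m, u, v, h1, h2.trans (hub _), by linarith, h4⟩
  push Not at hbig
  by_cases hB : ∃ n, n₁ + 1 ≤ n ∧ D / 2 ^ (n + 1) ≤ σ (n + 1) - pch D σ n
  swap
  · push Not at hB
    obtain ⟨m, u, v, h1, h2, h3, h4⟩ := lemW (p := pch D σ (n₁ + 1)) (u := σ (n₁ + 1)) hD hm hb
      (i := n₁ + 1) le_rfl (by linarith) (le_refl b) hp1.le
      fun n hn _ => stretch (N := n + 1) (fun k hk _ => hB k hk) hn (Nat.lt_succ_self n)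
    exact ⟨m, u, v, by linarith, h2, by linarith, h4⟩
  obtain ⟨n₂, hn₂⟩ : ∃ n₂, n₂ = Nat.find hB := ⟨_, rfl⟩
  have hs2 : n₁ + 1 ≤ n₂ ∧ D / 2 ^ (n₂ + 1) ≤ σ (n₂ + 1) - pch D σ n₂ := by
    rw [hn₂]; exact Nat.find_spec hB
  have hmin2 : ∀ k, n₁ + 1 ≤ k → k < n₂ → σ (k + 1) - pch D σ k < D / 2 ^ (k + 1) := by
    intro k hk hk1
    have h1 := Nat.find_min hB (m := k) (by rw [← hn₂]; exact hk1)
    by_contra h2
    exact h1 ⟨hk, not_lt.1 h2⟩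
  have hp2 : pch D σ n₂ = pch D σ (n₁ + 1) := (stretch (N := n₂ + 1)
    (fun k hk hk1 => hmin2 k hk (by omega)) hs2.1 (Nat.lt_succ_self _)).1
  have hlen : D / 2 ^ (n₂ + 1) ≤ σ (n₂ + 1) - σ (n₁ + 1) := by
    have := hs2.2
    rw [hp2, hp1] at this
    exact this
  have hpos : 0 < D / 2 ^ (n₂ + 1) := by positivity
  have hrest : b - σ (n₂ + 1) ≤ 2 * (D / 2 ^ (n₂ + 1)) := by
    rw [← half_pow]; exact hb n₂
  obtain ⟨m, u, v, h1, h2, h3, h4⟩ := lemW (p := pch D σ (n₁ + 1)) (u := σ (n₁ + 1)) hD hm hb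
      (i := n₁ + 1) le_rfl (by linarith) (hub (n₂ + 1)) hp1.le
      fun n hn hnv => stretch (N := n₂ + 1) (fun k hk hk1 => hmin2 k hk (by omega)) hn
        (hm.reflect_lt hnv)
  exact ⟨m, u, v, by linarith, h2.trans (hub _), by linarith, h4⟩

end Pool.Agent.Helper84.TR
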