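import Pool.Agent.Helper84.TR.AsmG

/-! Trees of countable rank: ordinals. -/

namespace Pool.Agent.Helper84.TR

open Set Ordinal Pool.Agent.Helper85.TS

theorem deep_initial {W W' : Type*} [LinearOrder W] [WellFoundedLT W] [LinearOrder W']
    [WellFoundedLT W'] (φ : W → W') (hφ : ∀ w v', v' < φ w ↔ ∃ v, v < w ∧ φ v = v')
    {M : Type*} [MetricSpace M] (o : M) (A : Set M) (δ : ℝ) (w : W) :
    ∀ x q, Deep o A δ (φ w) x q ↔ Deep o A δ w x q := by
  induction w using WellFoundedLT.induction with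
  | ind w ih =>
    intro x q
    rw [deep_iff, deep_iff]
    refine and_congr Iff.rfl ⟨fun h v hv => ?_, fun h v' hv' => ?_⟩
    · obtain ⟨y, z, s, t, a1, a2, a3, a4, a5, a6, a7, a8⟩ := h (φ v) ((hφ w _).2 ⟨v, hv, rfl⟩)
      exact ⟨y, z, s, t, a1, a2, a3, a4, a5, a6, (ih v hv y s).1 a7, (ih v hv z t).1 a8⟩
    · obtain ⟨v, hv, rfl⟩ := (hφ w v').1 hv'
      obtain ⟨y, z, s, t, a1, a2, a3, a4, a5, a6, a7, a8⟩ := h v hv
      exact ⟨y, z, s, t, a1, a2, a3, a4, a5, a6, (ih v hv y s).2 a7, (ih v hv z t).2 a8⟩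

/-- The rank is below `α`: no location carries the depths `β` for all `β < α`. -/
def RankLT {M : Type*} [MetricSpace M] (α : Ordinal.{0}) (o : M) (A : Set M) (δ : ℝ) : Prop :=
  ∀ (x : M) (q : ℝ), ∃ β < α, ¬ Deep o A δ β x q

section

variable {M : Type*} [MetricSpace M] {o : M} {A : Set M} {δ : ℝ}

theorem rank_toType {α : Ordinal.{0}} (h : RankLT α o A δ) (x : M) (q : ℝ) :
    ∃ w : α.ToType, ¬ Deep o A δ w x q := by
  obtain ⟨β, hβ, h1⟩ := h x q
  refine ⟨ToType.mk ⟨β, hβ⟩, fun h2 => h1 ?_⟩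
  let φ : α.ToType → Ordinal.{0} := fun w => (ToType.mk.symm w).1
  have hφ : ∀ w v', v' < φ w ↔ ∃ v, v < w ∧ φ v = v' := by
    intro w v'
    constructor
    · intro h3
      have h4 : v' < α := lt_trans h3 (ToType.mk.symm w).2
      refine ⟨ToType.mk ⟨v', h4⟩, ?_, ?_⟩
      · rw [← (ToType.mk (o := α)).symm.lt_iff_lt, OrderIso.symm_apply_apply]
        exact h3
      · simp only [φ]
        rw [OrderIso.symm_apply_apply]
    · rintro ⟨v, hv, rfl⟩
      exact (ToType.mk (o := α)).symm.lt_iff_lt.2 hv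
  have h5 := (deep_initial φ hφ o A δ (ToType.mk ⟨β, hβ⟩) x q).2 h2
  simp only [φ] at h5
  rw [OrderIso.symm_apply_apply] at h5
  exact h5

theorem countable_toType {α : Ordinal.{0}} (h : α < ω_ 1) : Countable α.ToType := by
  rw [Cardinal.lt_omega_iff_card_lt, Cardinal.lt_aleph_one_iff, ← Cardinal.mk_toType,
    Cardinal.mk_le_aleph0_iff] at h
  exact h

theorem deep_anti (hT : TL M) {W : Type*} [LinearOrder W] [WellFoundedLT W] {v w : W}
    (hvw : v ≤ w) {x : M} {q : ℝ} (h : Deep o A δ w x q) : Deep o A δ v x q := by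
  rcases hvw.eq_or_lt with rfl | hlt
  · exact h
  · rw [deep_iff] at h
    obtain ⟨y, z, s, t, a1, a2, a3, a4, a5, a6, a7, a8⟩ := h.2 v hlt
    exact deep_mono hT a7 a1 a3

theorem deep_delta {W : Type*} [LinearOrder W] [WellFoundedLT W] {δ' : ℝ} (hδ : δ ≤ δ') (w : W) :
    ∀ (x : M) (q : ℝ), Deep o A δ' w x q → Deep o A δ w x q := by
  induction w using WellFoundedLT.induction with
  | ind w ih =>
    intro x q h
    rw [deep_iff] at h ⊢
    obtain ⟨⟨y, hy, h1, h2⟩, h3⟩ := h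
    refine ⟨⟨y, hy, h1, by linarith⟩, fun v hv => ?_⟩
    obtain ⟨y, z, s, t, a1, a2, a3, a4, a5, a6, a7, a8⟩ := h3 v hv
    exact ⟨y, z, s, t, a1, a2, a3, a4, a5, a6, ih v hv y s a7, ih v hv z t a8⟩

theorem rank_mono {α α' : Ordinal.{0}} {B : Set M} {δ' : ℝ} (hα : α ≤ α') (hAB : A ⊆ B)
    (hδ : δ ≤ δ') (h : RankLT α o B δ) : RankLT α' o A δ' := by
  intro x q
  obtain ⟨β, hβ, h1⟩ := h x q
  refine ⟨β, hβ.trans_le hα, fun h2 => h1 ?_⟩
  exact deep_emb (fun z : M => z) (fun _ _ => rfl) (fun z hz => hAB hz) β x q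
    (deep_delta hδ β x q h2)

theorem dp_of_deep (k : ℕ) : ∀ (x : M) (q : ℝ), Deep o A δ (k : Ordinal.{0}) x q →
    Dp o A δ k x q := by
  induction k with
  | zero =>
    intro x q h
    rw [deep_iff] at h
    exact h.1
  | succ k ih =>
    intro x q h
    rw [deep_iff] at h
    have hlt : (k : Ordinal.{0}) < ((k + 1 : ℕ) : Ordinal.{0}) := by
      exact_mod_cast Nat.lt_succ_self k
    obtain ⟨y, z, s, t, a1, a2, a3, a4, a5, a6, a7, a8⟩ := h.2 _ hlt
    exact ⟨y, z, s, t, a1, a2, a3, a4, a5, a6, ih y s a7, ih z t a8⟩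

/-- Totally bounded sets have finite ranks. -/
theorem rank_of_tb (hT : TL M) (o : M) {A : Set M} (hA : TotallyBounded A) {δ : ℝ} (hδ : 0 < δ) :
    RankLT ω o A δ := by
  obtain ⟨k, hk⟩ := not_Dp hT (FD_of_tb o hA) hδ
  exact fun x q => ⟨k, natCast_lt_omega0 k, fun h => hk x q (dp_of_deep k x q h)⟩

/-- An infinite binary tree of segments from `o` to points of `A`, which all go on for more than
`δ`. -/
def IBT (o : M) (A : Set M) (δ : ℝ) : Prop :=
  ∃ (φ : List Bool → M) (q : List Bool → ℝ), ∀ s, φ s ∈ A ∧ q s + δ < dist (φ s) o ∧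
    (∀ b, q s ≤ q (b :: s) ∧ q s < gp o (φ s) (φ (b :: s))) ∧
    gp o (φ (true :: s)) (φ (false :: s)) ≤ q (true :: s) ∧
    gp o (φ (true :: s)) (φ (false :: s)) ≤ q (false :: s)

theorem gen_above (hT : TL M) {y : ℕ → M} (hy : ∀ x ∈ A, ∀ ε > 0, ∃ i, dist x (y i) < ε)
    {β : Ordinal.{0}} {x : M} {q : ℝ} (h : Deep o A δ (β + 1) x q) :
    ∃ p : ℕ × ℚ, q ≤ p.2 ∧ q < gp o x (y p.1) ∧ Deep o A δ (β + 1) (y p.1) p.2 := by
  have h0 := h
  rw [deep_iff] at h0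
  obtain ⟨u, z, s, t, a1, a2, a3, a4, a5, a6, a7, a8⟩ := h0.2 β (lt_add_one β)
  have hqg : q < gp o u z := by
    have := gp_tree hT o u z x
    rw [gp_comm o u x] at this
    exact lt_of_lt_of_le (lt_min a3 a4) this
  obtain ⟨r, hr1, hr2⟩ := exists_rat_btwn hqg
  have hD : Deep o A δ (β + 1) u (r : ℝ) := by
    have b7 := a7
    have b8 := a8
    rw [deep_iff] at b7 b8
    exact deep_of_pair hT ⟨b7.1, fun v hv => deep_anti hT (Order.lt_add_one_iff.1 hv) a7⟩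
      ⟨b8.1, fun v hv => deep_anti hT (Order.lt_add_one_iff.1 hv) a8⟩ a5 a6 hr2
  have b7 := a7
  rw [deep_iff] at b7
  obtain ⟨a, ha, c1, -⟩ := b7.1
  have c2 := gp_le_right o u a
  obtain ⟨i, hi⟩ := hy a ha (dist a o - r) (by linarith)
  have c3 : (r : ℝ) < gp o a (y i) := by
    unfold gp
    have := dist_triangle a (y i) o
    linarith
  have c4 : (r : ℝ) < gp o u (y i) :=
    lt_of_lt_of_le (lt_min (by linarith) c3) (gp_tree hT o u (y i) a)
  refine ⟨(i, r), hr1.le, ?_, deep_mono hT hD le_rfl (by rw [gp_comm]; exact c4)⟩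
  exact lt_of_lt_of_le (lt_min a3 (hr1.trans c4)) (gp_tree hT o x (y i) u)

theorem succ_lt_omega_one {γ : Ordinal.{0}} (h : γ < ω_ 1) : γ + 1 < ω_ 1 := by
  rw [← Order.succ_eq_add_one]
  exact (Cardinal.isSuccLimit_omega 1).succ_lt h

/-- Without infinite binary trees the rank is countable. -/
theorem rank_of_not_IBT (hT : TL M) {y : ℕ → M}
    (hy : ∀ x ∈ A, ∀ ε > 0, ∃ i, dist x (y i) < ε) (h : ¬ IBT o A δ) :
    ∃ α < ω_ 1, RankLT α o A δ := by
  classical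
  let D : Ordinal.{0} → ℕ × ℚ → Prop := fun β p => Deep o A δ β (y p.1) (p.2 : ℝ)
  let b : ℕ × ℚ → Ordinal.{0} := fun p =>
    if hp : ∃ β, β < ω_ 1 ∧ ¬ D β p then hp.choose else 0
  have hb1 : ∀ p, b p < ω_ 1 := by
    intro p
    simp only [b]
    split_ifs with hp
    · exact hp.choose_spec.1
    · exact omega_pos 1
  have hb2 : ∀ p, (∃ β, β < ω_ 1 ∧ ¬ D β p) → ¬ D (b p) p := by
    intro p hp
    simp only [b]
    rw [dif_pos hp]
    exact hp.choose_spec.2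
  obtain ⟨γ, hγ⟩ : ∃ γ, γ = ⨆ p, b p := ⟨_, rfl⟩
  have hγ1 : γ < ω_ 1 := by
    rw [hγ]
    exact Ordinal.iSup_lt_omega_one hb1
  have hγ2 : ∀ p, b p ≤ γ := fun p => by
    rw [hγ]
    exact Ordinal.le_iSup b p
  let good : ℕ × ℚ → Prop := fun p => ∀ β, β < ω_ 1 → D β p
  have hgood : ∀ p, D (γ + 1) p → good p := by
    intro p hp β hβ
    by_contra hcon
    exact hb2 p ⟨β, hβ, hcon⟩ (deep_anti hT ((hγ2 p).trans (le_add_of_nonneg_right zero_le_one)) hp)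
  have hγ3 := succ_lt_omega_one hγ1
  have hγ4 := succ_lt_omega_one hγ3
  refine ⟨γ + 1 + 1, hγ4, fun x q => ⟨γ + 1, lt_add_one _, fun hx => h ?_⟩⟩
  obtain ⟨p₀, -, -, hp₀⟩ := gen_above hT hy hx
  have hp₀' := hgood p₀ hp₀
  have hstep : ∀ p : {p // good p}, ∃ c : Bool → {p // good p},
      (∀ e, (p.1.2 : ℝ) ≤ (c e).1.2 ∧ (p.1.2 : ℝ) < gp o (y p.1.1) (y (c e).1.1)) ∧
      gp o (y (c true).1.1) (y (c false).1.1) ≤ (c true).1.2 ∧
      gp o (y (c true).1.1) (y (c false).1.1) ≤ (c false).1.2 := by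
    rintro ⟨p, hp⟩
    have h1 := hp _ hγ4
    simp only [D] at h1
    rw [deep_iff] at h1
    obtain ⟨u, z, s, t, a1, a2, a3, a4, a5, a6, a7, a8⟩ := h1.2 (γ + 1) (lt_add_one _)
    obtain ⟨p1, b1, b2, b3⟩ := gen_above hT hy a7
    obtain ⟨p2, c1, c2, c3⟩ := gen_above hT hy a8
    have hac := gp_across hT a5 a6 b2 c2
    refine ⟨fun e => if e = true then ⟨p1, hgood p1 b3⟩ else ⟨p2, hgood p2 c3⟩, ?_, ?_, ?_⟩
    · intro e
      cases e
      · exact ⟨a2.trans c1, lt_of_lt_of_le (lt_min a4 (lt_of_le_of_lt a2 c2))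
          (gp_tree hT o (y p.1) (y p2.1) z)⟩
      · exact ⟨a1.trans b1, lt_of_lt_of_le (lt_min a3 (lt_of_le_of_lt a1 b2))
          (gp_tree hT o (y p.1) (y p1.1) u)⟩
    · exact hac.trans (a5.trans b1)
    · exact hac.trans (a6.trans c1)
  choose c hc1 hc2 hc3 using hstep
  let G : List Bool → {p // good p} := fun s => s.rec ⟨p₀, hp₀'⟩ fun e _ p => c p e
  have hG : ∀ e s, G (e :: s) = c (G s) e := fun e s => rfl
  have hbase : ∀ p : {p // good p}, ∃ a ∈ A, (p.1.2 : ℝ) < gp o (y p.1.1) a ∧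
      (p.1.2 : ℝ) + δ < dist a o := by
    rintro ⟨p, hp⟩
    have h1 := hp 0 (omega_pos 1)
    simp only [D] at h1
    rw [deep_iff] at h1
    exact h1.1
  choose a ha1 ha2 ha3 using hbase
  refine ⟨fun s => a (G s), fun s => ((G s).1.2 : ℝ), fun s => ⟨ha1 _, ha3 _, fun e => ?_, ?_⟩⟩
  · refine ⟨(hc1 (G s) e).1, ?_⟩
    have h1 := (hc1 (G s) e).1
    have h2 := (hc1 (G s) e).2
    have h3 := ha2 (G s)
    have h4 := ha2 (G (e :: s))
    change ((G s).1.2 : ℝ) < gp o (a (G s)) (a (G (e :: s)))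
    rw [hG] at h4 ⊢
    have h5 := gp_tree hT o (y (G s).1.1) (a (c (G s) e)) (y (c (G s) e).1.1)
    have h6 := gp_tree hT o (a (G s)) (a (c (G s) e)) (y (G s).1.1)
    rw [gp_comm o (a (G s)) (y (G s).1.1)] at h6
    exact lt_of_lt_of_le (lt_min h3 (lt_of_lt_of_le (lt_min h2 (lt_of_le_of_lt h1 h4)) h5)) h6
  · have h1 := ha2 (G (true :: s))
    have h2 := ha2 (G (false :: s))
    have h3 := hc2 (G s)
    have h4 := hc3 (G s)
    change gp o (a (G (true :: s))) (a (G (false :: s))) ≤ ((G (true :: s)).1.2 : ℝ) ∧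
      gp o (a (G (true :: s))) (a (G (false :: s))) ≤ ((G (false :: s)).1.2 : ℝ)
    rw [hG] at h1 h2
    rw [hG, hG]
    have h5 := gp_across hT h3 h4 h1 h2
    exact ⟨h5.trans h3, h5.trans h4⟩

end

end Pool.Agent.Helper84.TR
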