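import Pool.Agent.Helper84.TR.Tree
import Pool.Agent.Helper85.TS.EmbA

/-! Trees of countable rank: one step of the construction of the host space. -/

namespace Pool.Agent.Helper84.TR

open MeasureTheory Set ENNReal Pool.Agent.Helper85.TS

/-- The location `(x, q)`, i.e. the point at distance `q` from `o` on the segment from `o` to `x`,
carries a binary tree of depth `w` made of segments from `o` to points of `A`, which all go on for
more than `δ`. -/
def Deep {W : Type*} [LinearOrder W] [WellFoundedLT W] {M : Type*} [MetricSpace M] (o : M)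
    (A : Set M) (δ : ℝ) (w : W) (x : M) (q : ℝ) : Prop :=
  (∃ y ∈ A, q < gp o x y ∧ q + δ < dist y o) ∧
  ∀ v, v < w → ∃ (y z : M) (s t : ℝ), q ≤ s ∧ q ≤ t ∧ q < gp o x y ∧ q < gp o x z ∧
    gp o y z ≤ s ∧ gp o y z ≤ t ∧ Deep o A δ v y s ∧ Deep o A δ v z t
termination_by (wellFounded_lt (α := W)).wrap w

/-- Some segment goes on for more than `δ`. -/
def Base {M : Type*} [MetricSpace M] (o : M) (A : Set M) (δ : ℝ) (x : M) (q : ℝ) : Prop :=
  ∃ y ∈ A, q < gp o x y ∧ q + δ < dist y o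

section

variable {W : Type*} [LinearOrder W] [WellFoundedLT W] {M : Type*} [MetricSpace M] {o : M}
  {A : Set M} {δ : ℝ}

theorem deep_iff (w : W) (x : M) (q : ℝ) : Deep o A δ w x q ↔ Base o A δ x q ∧
    ∀ v, v < w → ∃ (y z : M) (s t : ℝ), q ≤ s ∧ q ≤ t ∧ q < gp o x y ∧ q < gp o x z ∧
      gp o y z ≤ s ∧ gp o y z ≤ t ∧ Deep o A δ v y s ∧ Deep o A δ v z t := by
  rw [Deep, Base]

theorem base_mono (hT : TL M) {x z : M} {q s : ℝ} (h : Base o A δ z s) (hqs : q ≤ s)
    (hq : q < gp o x z) : Base o A δ x q := by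
  obtain ⟨y, hy, h1, h2⟩ := h
  exact ⟨y, hy, lt_of_lt_of_le (lt_min hq (lt_of_le_of_lt hqs h1)) (gp_tree hT o x y z),
    by linarith⟩

theorem base_lt {x : M} {q : ℝ} (h : Base o A δ x q) : q < dist x o := by
  obtain ⟨y, _, h1, _⟩ := h
  exact lt_of_lt_of_le h1 (gp_le_left o x y)

theorem deep_mono (hT : TL M) {w : W} {x z : M} {q s : ℝ} (h : Deep o A δ w z s) (hqs : q ≤ s)
    (hq : q < gp o x z) : Deep o A δ w x q := by
  rw [deep_iff] at h ⊢
  refine ⟨base_mono hT h.1 hqs hq, fun v hv => ?_⟩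
  obtain ⟨y, y', s', t', h1, h2, h3, h4, h5, h6, h7, h8⟩ := h.2 v hv
  exact ⟨y, y', s', t', hqs.trans h1, hqs.trans h2,
    lt_of_lt_of_le (lt_min hq (lt_of_le_of_lt hqs h3)) (gp_tree hT o x y z),
    lt_of_lt_of_le (lt_min hq (lt_of_le_of_lt hqs h4)) (gp_tree hT o x y' z), h5, h6, h7, h8⟩

/-- All depths below `w` occur above the location. -/
def Full (o : M) (A : Set M) (δ : ℝ) (w : W) (x : M) (q : ℝ) : Prop :=
  Base o A δ x q ∧ ∀ v, v < w → Deep o A δ v x q

theorem full_mono (hT : TL M) {w : W} {x z : M} {q s : ℝ} (h : Full o A δ w z s) (hqs : q ≤ s)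
    (hq : q < gp o x z) : Full o A δ w x q :=
  ⟨base_mono hT h.1 hqs hq, fun v hv => deep_mono hT (h.2 v hv) hqs hq⟩

theorem full_self (hT : TL M) {w : W} {x : M} {q s : ℝ} (h : Full o A δ w x s) (hqs : q ≤ s) :
    Full o A δ w x q :=
  full_mono hT h hqs (by rw [gp_self]; exact lt_of_le_of_lt hqs (base_lt h.1))

theorem deep_of_pair (hT : TL M) {w : W} {x x' : M} {r r' c : ℝ} (h : Full o A δ w x r)
    (h' : Full o A δ w x' r') (h1 : gp o x x' ≤ r) (h2 : gp o x x' ≤ r') (hc : c < gp o x x') :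
    Deep o A δ w x c := by
  rw [deep_iff]
  have hcx : c < gp o x x := by
    rw [gp_self]; exact lt_of_lt_of_le hc (gp_le_left o x x')
  refine ⟨base_mono hT h.1 (hc.le.trans h1) hcx, fun v hv => ?_⟩
  exact ⟨x, x', r, r', hc.le.trans h1, hc.le.trans h2, hcx, hc, h1, h2, h.2 v hv, h'.2 v hv⟩

end

/-! ### Separable reflexive spaces -/

theorem rfx_equiv {X Y : Type*} [NormedAddCommGroup X] [NormedSpace ℝ X] [NormedAddCommGroup Y]
    [NormedSpace ℝ Y] (e : X ≃L[ℝ] Y) (h : Rfx X) : Rfx Y := by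
  intro Φ
  obtain ⟨x, hx⟩ := h (Φ.comp ((ContinuousLinearMap.compL ℝ Y X ℝ).flip
    (e.symm : Y →L[ℝ] X)))
  have hx' : ∀ f : StrongDual ℝ X, f x = Φ (f.comp (e.symm : Y →L[ℝ] X)) := by
    intro f
    have := DFunLike.congr_fun hx f
    simp only [NormedSpace.dual_def, ContinuousLinearMap.comp_apply,
      ContinuousLinearMap.flip_apply, ContinuousLinearMap.compL_apply] at this
    exact this
  refine ⟨e x, ?_⟩
  ext g
  rw [NormedSpace.dual_def]
  have h1 := hx' (g.comp (e : X →L[ℝ] Y))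
  have h2 : (g.comp (e : X →L[ℝ] Y)).comp (e.symm : Y →L[ℝ] X) = g := by
    refine ContinuousLinearMap.ext fun y => ?_
    change g (e (e.symm y)) = g y
    rw [e.apply_symm_apply]
  rw [h2] at h1
  exact h1

/-- Separable reflexive spaces. -/
structure Bn where
  X : Type
  [ng : NormedAddCommGroup X]
  [ns : NormedSpace ℝ X]
  [cs : CompleteSpace X]
  [sp : TopologicalSpace.SeparableSpace X]
  rf : Rfx X

attribute [instance] Bn.ng Bn.ns Bn.cs Bn.sp

/-- The real line. -/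
noncomputable def Bn.line : Bn := ⟨ℝ, rfx_fin ℝ⟩

/-- The space `ℝ ⊕_1 (⊕ E_i)_2`. -/
noncomputable def Bn.sum {ι : Type} [Countable ι] (E : ι → Bn) : Bn :=
  haveI h1 : TopologicalSpace.SeparableSpace (lp (fun i => (E i).X) 2) := sep_lp (by norm_num)
  haveI h2 : TopologicalSpace.SeparableSpace (WithLp 1 (ℝ × lp (fun i => (E i).X) 2)) :=
    ((WithLp.prodContinuousLinearEquiv 1 ℝ ℝ
      (lp (fun i => (E i).X) 2)).symm.surjective.denseRange).separableSpace
      (WithLp.prodContinuousLinearEquiv 1 ℝ ℝ (lp (fun i => (E i).X) 2)).symm.continuous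
  ⟨WithLp 1 (ℝ × lp (fun i => (E i).X) 2),
    rfx_equiv (WithLp.prodContinuousLinearEquiv 1 ℝ ℝ (lp (fun i => (E i).X) 2)).symm
      (rfx_prod (rfx_fin ℝ) (rfx_lp two_conj (by norm_num) fun i => (E i).rf))⟩

/-- The data: a tree, and sets of positions on its segments. -/
structure Dat where
  M : Type
  [ms : MetricSpace M]
  hT : TL M
  o : M
  A : Set M
  δ : ℝ
  y : ℕ → M
  hy : ∀ (x : M) (ε : ℝ), 0 < ε → ∃ i, dist x (y i) < ε
  K : M → Set ℝ
  K1 : ∀ x x' r, r < gp o x x' → r ∈ K x → r ∈ K x'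
  K2 : ∀ x, MeasurableSet (K x)
  K3 : ∀ x r, r ∈ K x → 0 ≤ r
  K4 : ∀ x r, r ∈ K x → Base o A δ x r

attribute [instance] Dat.ms

/-- The estimates for a map on a branch. -/
def Dat.Good (d : Dat) {E : Type} [NormedAddCommGroup E] (G : d.M → E) (x₀ : d.M) (e : ℝ) :
    Prop :=
  (∀ x, e < gp d.o x x₀ → ‖G x‖ = volume.real (d.K x ∩ Ioi e)) ∧
  ∀ x x', e < gp d.o x x₀ → e < gp d.o x' x₀ →
    volume.real (d.K x ∩ Ici (gp d.o x x')) ≤ ‖G x - G x'‖ ∧
    ‖G x - G x'‖ ≤ volume.real (d.K x ∩ Ici (gp d.o x x')) +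
      volume.real (d.K x' ∩ Ici (gp d.o x x'))

theorem Dat.fin (d : Dat) (x : d.M) (s : Set ℝ) : volume (d.K x ∩ s) ≠ ∞ := by
  refine ne_top_of_le_ne_top (measure_Ico_lt_top (a := 0) (b := dist x d.o)).ne
    (measure_mono fun r hr => ⟨d.K3 x r hr.1, base_lt (d.K4 x r hr.1)⟩)

theorem Dat.split_Ioi (d : Dat) (x : d.M) {e f : ℝ} (h : e ≤ f) :
    volume.real (d.K x ∩ Ioi e) = volume.real (d.K x ∩ Ioc e f) +
      volume.real (d.K x ∩ Ioi f) := by
  rw [← measureReal_inter_add_sdiff (s := d.K x ∩ Ioi e) (measurableSet_Iic (a := f))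
    (d.fin x _)]
  congr 2
  · rw [inter_assoc, Ioi_inter_Iic]
  · ext r
    simp only [Set.mem_sdiff, mem_inter_iff, mem_Ioi, mem_Iic, not_le]
    exact ⟨fun h1 => ⟨h1.1.1, h1.2⟩, fun h1 => ⟨⟨h1.1, lt_of_le_of_lt h h1.2⟩, h1.2⟩⟩

theorem Dat.split_Ici (d : Dat) (x : d.M) {a f : ℝ} (h : a ≤ f) :
    volume.real (d.K x ∩ Ici a) = volume.real (d.K x ∩ Icc a f) +
      volume.real (d.K x ∩ Ioi f) := by
  rw [← measureReal_inter_add_sdiff (s := d.K x ∩ Ici a) (measurableSet_Iic (a := f))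
    (d.fin x _)]
  congr 2
  · rw [inter_assoc, Ici_inter_Iic]
  · ext r
    simp only [Set.mem_sdiff, mem_inter_iff, mem_Ici, mem_Ioi, mem_Iic, not_le]
    exact ⟨fun h1 => ⟨h1.1.1, h1.2⟩, fun h1 => ⟨⟨h1.1, h.trans h1.2.le⟩, h1.2⟩⟩

theorem Dat.split_Ioc (d : Dat) (x : d.M) {e a f : ℝ} (h1 : e < a) (h2 : a ≤ f) :
    volume.real (d.K x ∩ Ioc e f) = volume.real (d.K x ∩ Ioo e a) +
      volume.real (d.K x ∩ Icc a f) := by
  rw [← measureReal_inter_add_sdiff (s := d.K x ∩ Ioc e f) (measurableSet_Iio (a := a))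
    (d.fin x _)]
  congr 2
  · ext r
    simp only [mem_inter_iff, mem_Ioc, mem_Iio, mem_Ioo]
    exact ⟨fun h => ⟨h.1.1, h.1.2.1, h.2⟩, fun h => ⟨⟨h.1, h.2.1, h.2.2.le.trans h2⟩, h.2.2⟩⟩
  · ext r
    simp only [Set.mem_sdiff, mem_inter_iff, mem_Ioc, mem_Icc, mem_Iio, not_lt]
    exact ⟨fun h => ⟨h.1.1, h.2, h.1.2.2⟩,
      fun h => ⟨⟨h.1, lt_of_lt_of_le h1 h.2.1, h.2.2⟩, h.2.1⟩⟩

/-- One step: a spine and its side branches. -/
theorem Dat.step (d : Dat) {ι : Type} [Countable ι] (E : ι → Bn) {x₀ : d.M} {e : ℝ}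
    (f : d.M → ℝ) (f0 : ∀ x, e < gp d.o x x₀ → e ≤ f x ∧ f x ≤ dist x d.o)
    (fa : ∀ x x', e < gp d.o x x₀ → e < gp d.o x' x₀ → f x < gp d.o x x' → f x' = f x)
    (fb : ∀ x x', e < gp d.o x x₀ → e < gp d.o x' x₀ → min (f x) (f x') ≤ gp d.o x x')
    (ch : ∀ x, e < gp d.o x x₀ ∧ f x < dist x d.o →
      ∃ (i : ι) (G : d.M → (E i).X), d.Good G x (f x)) :
    ∃ G : d.M → (Bn.sum (fun p : ι × ℕ => E p.1)).X, d.Good G x₀ e := by
  classical
  have hT := d.hT
  have hidx : ∀ x, e < gp d.o x x₀ ∧ f x < dist x d.o → ∃ i, f x < gp d.o x (d.y i) := by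
    rintro x ⟨-, hx⟩
    obtain ⟨i, hi⟩ := d.hy x (dist x d.o - f x) (by linarith)
    refine ⟨i, ?_⟩
    unfold gp
    have := dist_triangle x (d.y i) d.o
    linarith
  let L : d.M → Prop := fun x => e < gp d.o x x₀ ∧ f x < dist x d.o
  let idx : d.M → ℕ := fun x => if h : L x then Nat.find (hidx x h) else 0
  have hidx1 : ∀ x, L x → f x < gp d.o x (d.y (idx x)) := by
    intro x h
    simp only [idx]
    rw [dif_pos h]
    exact Nat.find_spec (hidx x h)
  have hidx2 : ∀ x, L x → ∀ j, f x < gp d.o x (d.y j) → idx x ≤ j := by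
    intro x h j hj
    simp only [idx]
    rw [dif_pos h]
    exact Nat.find_min' (hidx x h) hj
  have sameL : ∀ x x', e < gp d.o x x₀ → e < gp d.o x' x₀ → f x < gp d.o x x' →
      f x' = f x ∧ L x ∧ L x' := by
    intro x x' hx hx' h
    have h1 := fa x x' hx hx' h
    exact ⟨h1, ⟨hx, lt_of_lt_of_le h (gp_le_left _ _ _)⟩,
      ⟨hx', by rw [h1]; exact lt_of_lt_of_le h (gp_le_right _ _ _)⟩⟩
  have same1 : ∀ x x', L x → L x' → f x < gp d.o x x' → idx x = idx x' := by
    have key : ∀ x x', L x → L x' → f x < gp d.o x x' → idx x' ≤ idx x := by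
      intro x x' hx hx' h
      have h1 := fa x x' hx.1 hx'.1 h
      refine hidx2 x' hx' _ ?_
      have h2 := gp_tree hT d.o x' (d.y (idx x)) x
      rw [gp_comm d.o x' x] at h2
      rw [h1]
      exact lt_of_lt_of_le (lt_min h (hidx1 x hx)) h2
    intro x x' hx hx' h
    have h1 := fa x x' hx.1 hx'.1 h
    exact le_antisymm (key x' x hx' hx (by rw [h1, gp_comm]; exact h)) (key x x' hx hx' h)
  have same2 : ∀ x x', L x → L x' → idx x = idx x' → f x < gp d.o x x' ∧ f x' = f x := by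
    intro x x' hx hx' h
    have h1 := gp_tree hT d.o x x' (d.y (idx x))
    have h2 := hidx1 x hx
    have h3 := hidx1 x' hx'
    rw [← h, gp_comm] at h3
    rcases le_total (f x) (f x') with h4 | h4
    · have h5 : f x < gp d.o x x' := lt_of_lt_of_le (lt_min h2 (lt_of_le_of_lt h4 h3)) h1
      exact ⟨h5, fa x x' hx.1 hx'.1 h5⟩
    · have h5 : f x' < gp d.o x x' := lt_of_lt_of_le (lt_min (lt_of_le_of_lt h4 h2) h3) h1
      have h6 := fa x' x hx'.1 hx.1 (by rw [gp_comm]; exact h5)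
      exact ⟨by rw [h6]; exact h5, h6.symm⟩
  choose I G hG using ch
  let R : ℕ → d.M → lp (fun p : ι × ℕ => (E p.1).X) 2 := fun n x =>
    if h : ∃ z, L z ∧ idx z = n then
      lp.single 2 ((I h.choose h.choose_spec.1, n) : ι × ℕ) (G h.choose h.choose_spec.1 x) else 0
  let c : d.M → lp (fun p : ι × ℕ => (E p.1).X) 2 := fun x => if L x then R (idx x) x else 0
  have hc : ∀ x, L x → ∃ (z : d.M) (hz : L z), idx z = idx x ∧ ∀ x', L x' → idx x' = idx x →
      c x' = lp.single 2 ((I z hz, idx x) : ι × ℕ) (G z hz x') := by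
    intro x hx
    have h : ∃ z, L z ∧ idx z = idx x := ⟨x, hx, rfl⟩
    refine ⟨h.choose, h.choose_spec.1, h.choose_spec.2, fun x' hx' hxx => ?_⟩
    simp only [c]
    rw [if_pos hx', hxx]
    simp only [R]
    rw [dif_pos h]
  have hc0 : ∀ x, ¬ L x → c x = 0 := fun x hx => by
    simp only [c]
    rw [if_neg hx]
  have hc1 : ∀ x, e < gp d.o x x₀ → ‖c x‖ = volume.real (d.K x ∩ Ioi (f x)) := by
    intro x hx
    by_cases hL : L x
    · obtain ⟨z, hz, h1, h2⟩ := hc x hL
      rw [h2 x hL rfl, lp.norm_single (by norm_num)]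
      obtain ⟨h3, h4⟩ := same2 z x hz hL h1
      rw [(hG z hz).1 x (by rw [gp_comm]; exact h3), h4]
    · rw [hc0 x hL, norm_zero]
      have h1 : d.K x ∩ Ioi (f x) = ∅ := by
        rw [Set.eq_empty_iff_forall_notMem]
        rintro r ⟨hr1, hr2⟩
        exact hL ⟨hx, lt_trans hr2 (base_lt (d.K4 x r hr1))⟩
      rw [h1, measureReal_empty]
  have hc3 : ∀ x x', e < gp d.o x x₀ → e < gp d.o x' x₀ → gp d.o x x' ≤ f x →
      ‖c x‖ ≤ ‖c x - c x'‖ := by
    intro x x' hx hx' ha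
    by_cases hL : L x
    · obtain ⟨z, hz, h1, h2⟩ := hc x hL
      have h3 := h2 x hL rfl
      have h4 : c x' ((I z hz, idx x) : ι × ℕ) = 0 := by
        by_cases hL' : L x'
        · obtain ⟨z', hz', h1', h2'⟩ := hc x' hL'
          rw [h2' x' hL' rfl]
          have hne : ((I z hz, idx x) : ι × ℕ) ≠ (I z' hz', idx x') := by
            intro h
            have h5 : idx x = idx x' := congrArg Prod.snd h
            exact absurd (same2 x x' hL hL' h5).1 (not_lt.2 ha)
          rw [lp.coeFn_single, Pi.single_eq_of_ne hne]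
        · rw [hc0 x' hL']
          rfl
      have h5 := lp.norm_apply_le_norm (p := 2) (by norm_num) (c x - c x')
        ((I z hz, idx x) : ι × ℕ)
      have h6 : (c x - c x') ((I z hz, idx x) : ι × ℕ) = G z hz x := by
        change c x _ - c x' _ = _
        rw [h4, sub_zero, h3, lp.coeFn_single, Pi.single_eq_same]
      rw [h6] at h5
      rw [h3, lp.norm_single (by norm_num)]
      rw [← h3]
      exact h5
    · rw [hc0 x hL, norm_zero]
      exact norm_nonneg _
  let Γ : d.M → WithLp 1 (ℝ × lp (fun p : ι × ℕ => (E p.1).X) 2) := fun x =>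
    WithLp.toLp 1 (volume.real (d.K x ∩ Ioc e (f x)), c x)
  have hΓ : ∀ x x', ‖Γ x - Γ x'‖ = |volume.real (d.K x ∩ Ioc e (f x)) -
      volume.real (d.K x' ∩ Ioc e (f x'))| + ‖c x - c x'‖ := by
    intro x x'
    rw [WithLp.prod_norm_eq_of_L1]
    rfl
  refine ⟨Γ, fun x hx => ?_, fun x x' hx hx' => ?_⟩
  · change ‖Γ x‖ = _
    rw [WithLp.prod_norm_eq_of_L1]
    change |volume.real (d.K x ∩ Ioc e (f x))| + ‖c x‖ = _
    rw [abs_of_nonneg measureReal_nonneg, hc1 x hx, ← d.split_Ioi x (f0 x hx).1]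
  · change _ ≤ ‖Γ x - Γ x'‖ ∧ ‖Γ x - Γ x'‖ ≤ _
    rw [hΓ]
    have hea : e < gp d.o x x' := by
      have := gp_tree hT d.o x x' x₀
      rw [gp_comm d.o x₀ x'] at this
      exact lt_of_lt_of_le (lt_min hx hx') this
    have agree : ∀ s : Set ℝ, (∀ r ∈ s, r < gp d.o x x') → d.K x ∩ s = d.K x' ∩ s := by
      intro s hs
      ext r
      refine ⟨fun h => ⟨d.K1 x x' r (hs r h.2) h.1, h.2⟩,
        fun h => ⟨d.K1 x' x r (by rw [gp_comm]; exact hs r h.2) h.1, h.2⟩⟩
    by_cases h1 : f x < gp d.o x x'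
    · obtain ⟨h2, h3, h4⟩ := sameL x x' hx hx' h1
      have h5 : d.K x ∩ Ioc e (f x) = d.K x' ∩ Ioc e (f x') := by
        rw [h2]
        exact agree _ fun r hr => lt_of_le_of_lt hr.2 h1
      rw [h5, sub_self, abs_zero, zero_add]
      obtain ⟨z, hz, h6, h7⟩ := hc x h3
      have h8 := same1 x x' h3 h4 h1
      rw [h7 x h3 rfl, h7 x' h4 h8.symm, ← lp.single_sub, lp.norm_single (by norm_num)]
      obtain ⟨h9, h10⟩ := same2 z x hz h3 h6
      obtain ⟨h11, h12⟩ := same2 z x' hz h4 (h6.trans h8)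
      exact (hG z hz).2 x x' (by rw [gp_comm]; exact h9) (by rw [gp_comm]; exact h11)
    · by_cases h1' : f x' < gp d.o x x'
      · exfalso
        have := fa x' x hx' hx (by rw [gp_comm]; exact h1')
        exact h1 (by rw [this]; exact h1')
      push Not at h1 h1'
      have hmin := fb x x' hx hx'
      have hsx := d.split_Ioc x hea h1
      have hsx' := d.split_Ioc x' hea h1'
      have hag : d.K x ∩ Ioo e (gp d.o x x') = d.K x' ∩ Ioo e (gp d.o x x') :=
        agree _ fun r hr => hr.2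
      have hv : |volume.real (d.K x ∩ Ioc e (f x)) - volume.real (d.K x' ∩ Ioc e (f x'))| =
          volume.real (d.K x ∩ Icc (gp d.o x x') (f x)) +
          volume.real (d.K x' ∩ Icc (gp d.o x x') (f x')) := by
        rw [hsx, hsx', hag, add_sub_add_left_eq_sub]
        have hz : ∀ (z : d.M) (b : ℝ), b = gp d.o x x' →
            volume.real (d.K z ∩ Icc (gp d.o x x') b) = 0 := by
          rintro z b rfl
          have h2 : volume (d.K z ∩ Icc (gp d.o x x') (gp d.o x x')) = 0 := by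
            refine measure_mono_null inter_subset_right ?_
            rw [Icc_self, Real.volume_singleton]
          rw [measureReal_def, h2, ENNReal.toReal_zero]
        rcases min_le_iff.1 hmin with h2 | h2
        · rw [hz x (f x) (le_antisymm h2 h1), zero_sub, abs_neg,
            abs_of_nonneg measureReal_nonneg, zero_add]
        · rw [hz x' (f x') (le_antisymm h2 h1'), sub_zero,
            abs_of_nonneg measureReal_nonneg, add_zero]
      rw [hv, d.split_Ici x h1, d.split_Ici x' h1', ← hc1 x hx, ← hc1 x' hx']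
      have h2 := hc3 x x' hx hx' h1
      have h3 := norm_sub_le (c x) (c x')
      have h4 : 0 ≤ volume.real (d.K x' ∩ Icc (gp d.o x x') (f x')) := measureReal_nonneg
      constructor <;> linarith

end Pool.Agent.Helper84.TR
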