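import Pool.Agent.Helper84.TR.OneD

/-! The coordinates of a point of a tree. -/

namespace Pool.Agent.Helper84.TR

open MeasureTheory Set

/-- The four point condition. -/
def TL (M : Type*) [MetricSpace M] : Prop :=
  ∀ x y z w : M, dist x y + dist z w ≤ max (dist x z + dist y w) (dist x w + dist y z)

section

variable {M : Type*} [MetricSpace M]

/-- The Gromov product. -/
noncomputable def gp (o x y : M) : ℝ := (dist x o + dist y o - dist x y) / 2

theorem gp_nonneg (o x y : M) : 0 ≤ gp o x y := by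
  unfold gp
  have := dist_triangle_right x y o
  linarith

theorem gp_le_left (o x y : M) : gp o x y ≤ dist x o := by
  unfold gp
  have := dist_triangle_left y o x
  linarith

theorem gp_comm (o x y : M) : gp o x y = gp o y x := by
  unfold gp
  rw [dist_comm x y]
  ring

theorem gp_le_right (o x y : M) : gp o x y ≤ dist y o := by
  rw [gp_comm]; exact gp_le_left o y x

theorem gp_self (o x : M) : gp o x x = dist x o := by
  unfold gp
  rw [dist_self]
  ring

theorem gp_tree (hT : TL M) (o x y z : M) : min (gp o x z) (gp o z y) ≤ gp o x y := by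
  unfold gp
  have h := hT x y z o
  rcases le_max_iff.1 h with h1 | h1
  · refine (min_le_left _ _).trans ?_
    linarith
  · refine (min_le_right _ _).trans ?_
    rw [dist_comm z y]
    linarith

/-- The height function: supremum, over the points above, of what is robust at scale `n`. -/
noncomputable def sg (o : M) (A : Set M) (D : ℝ) (x : M) : ℕ → ℝ
  | 0 => 0
  | n + 1 => sSup ((fun y => max 0 (min (gp o x y) (dist y o - D / 2 ^ n))) '' A)

theorem sg_le (o : M) (A : Set M) (D : ℝ) (x : M) (n : ℕ) : sg o A D x n ≤ dist x o := by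
  cases n with
  | zero => exact dist_nonneg
  | succ n =>
    refine Real.sSup_le ?_ dist_nonneg
    rintro _ ⟨y, -, rfl⟩
    exact max_le dist_nonneg ((min_le_left _ _).trans (gp_le_left o x y))

theorem bdd_sg (o : M) (A : Set M) (D : ℝ) (x : M) (n : ℕ) :
    BddAbove ((fun y => max 0 (min (gp o x y) (dist y o - D / 2 ^ n))) '' A) := by
  refine ⟨dist x o, ?_⟩
  rintro _ ⟨y, -, rfl⟩
  exact max_le dist_nonneg ((min_le_left _ _).trans (gp_le_left o x y))

theorem sg_nonneg (o : M) (A : Set M) (D : ℝ) (x : M) (n : ℕ) : 0 ≤ sg o A D x n := by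
  cases n with
  | zero => exact le_rfl
  | succ n =>
    refine Real.sSup_nonneg ?_
    rintro _ ⟨y, -, rfl⟩
    exact le_max_left _ _

theorem sg_mono (o : M) (A : Set M) {D : ℝ} (hD : 0 < D) (x : M) : Monotone (sg o A D x) := by
  refine monotone_nat_of_le_succ fun n => ?_
  cases n with
  | zero => exact sg_nonneg o A D x 1
  | succ n =>
    refine Real.sSup_le ?_ (sg_nonneg o A D x (n + 2))
    rintro _ ⟨y, hy, rfl⟩
    refine le_trans ?_ (le_csSup (bdd_sg o A D x (n + 1)) ⟨y, hy, rfl⟩)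
    have h1 : D / 2 ^ (n + 1) ≤ D / 2 ^ n := anti hD (Nat.le_succ n)
    exact max_le_max le_rfl (min_le_min le_rfl (by linarith))

theorem sg_ge (o : M) {A : Set M} {D : ℝ} (hD : 0 < D) {x : M} (hx : x ∈ A) (n : ℕ) :
    dist x o - sg o A D x (n + 1) ≤ D / 2 ^ n := by
  have h1 := le_csSup (bdd_sg o A D x n) ⟨x, hx, rfl⟩
  have h2 : dist x o - D / 2 ^ n ≤ sg o A D x (n + 1) := by
    refine le_trans ?_ h1
    refine le_trans ?_ (le_max_right _ _)
    have h3 : 0 < D / 2 ^ n := by positivity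
    refine le_min ?_ le_rfl
    rw [gp_self]
    linarith
  linarith

/-- A witness above a position. -/
theorem sg_wit {o : M} {A : Set M} {D : ℝ} {x : M} {n : ℕ} {r : ℝ} (h0 : 0 ≤ r)
    (h : r < sg o A D x (n + 1)) : ∃ y ∈ A, r < gp o x y ∧ r < dist y o - D / 2 ^ n := by
  rcases A.eq_empty_or_nonempty with hA | hA
  · subst hA
    simp only [sg, image_empty, Real.sSup_empty] at h
    exact absurd h (not_lt.2 h0)
  · obtain ⟨_, ⟨y, hy, rfl⟩, h1⟩ := exists_lt_of_lt_csSup (hA.image _) h
    refine ⟨y, hy, ?_⟩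
    rcases lt_max_iff.1 h1 with h2 | h2
    · exact absurd h2 (not_lt.2 h0)
    · exact lt_min_iff.1 h2

theorem sg_agree_aux (hT : TL M) (o : M) (A : Set M) (D : ℝ) (x x' : M) (n : ℕ) {r : ℝ}
    (h0 : 0 ≤ r) (hr : r < gp o x x') (h : r < sg o A D x n) : r < sg o A D x' n := by
  cases n with
  | zero => exact absurd h (not_lt.2 h0)
  | succ n =>
    obtain ⟨y, hy, h1, h2⟩ := sg_wit h0 h
    refine lt_of_lt_of_le ?_ (le_csSup (bdd_sg o A D x' n) ⟨y, hy, rfl⟩)
    have h3 := gp_tree hT o x' y x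
    rw [gp_comm o x' x] at h3
    refine lt_of_lt_of_le ?_ (le_max_right _ _)
    exact lt_min (lt_of_lt_of_le (lt_min hr h1) h3) h2

/-- The height functions of two points agree up to the branching. -/
theorem sg_agree (hT : TL M) (o : M) (A : Set M) (D : ℝ) (x x' : M) (n : ℕ)
    (h : sg o A D x n < gp o x x') : sg o A D x' n = sg o A D x n := by
  refine le_antisymm ?_ ?_
  · by_contra hcon
    push Not at hcon
    exact lt_irrefl _ (sg_agree_aux hT o A D x' x n (sg_nonneg o A D x n)
      (by rw [gp_comm]; exact h) hcon)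
  · by_contra hcon
    push Not at hcon
    have h1 := sg_agree_aux hT o A D x x' n (sg_nonneg o A D x' n) (hcon.trans h) hcon
    exact lt_irrefl _ h1

/-- The colour sets of two points agree up to the branching. -/
theorem col_agree (hT : TL M) (o : M) (A : Set M) {D : ℝ} (hD : 0 < D) (x x' : M) (m : ℕ) {r : ℝ}
    (hr : r < gp o x x') (h : r ∈ Col D (sg o A D x) m) : r ∈ Col D (sg o A D x') m := by
  obtain ⟨n, hnm, h1, h2, h3, h4⟩ := h
  have hle : ∀ k ≤ n, sg o A D x k = sg o A D x' k := fun k hk =>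
    (sg_agree hT o A D x x' k (lt_of_le_of_lt ((sg_mono o A hD x hk).trans h1) hr)).symm
  have hp : pch D (sg o A D x) n = pch D (sg o A D x') n := pch_congr hle
  refine ⟨n, hnm, ?_, ?_, ?_, ?_⟩
  · rw [← hle n le_rfl]; exact h1
  · exact sg_agree_aux hT o A D x x' (n + 1) ((sg_nonneg o A D x n).trans h1) hr h2
  · rw [← hp]; exact h3
  · rw [← hp]; exact h4

/-- The set of positions of colour `m` and direction `j`. -/
def KK (o : M) (A : Set M) (D : ℝ) {N : ℕ → ℕ} (y : ∀ m, Fin (N m) → M) (m : ℕ) (j : Fin (N m))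
    (x : M) : Set ℝ :=
  {r | r ∈ Col D (sg o A D x) m ∧ r < gp o x (y m j) ∧ ∀ i < j, gp o x (y m i) ≤ r}

variable {o : M} {A : Set M} {D : ℝ} {N : ℕ → ℕ} {y : ∀ m, Fin (N m) → M}

theorem KK_agree (hT : TL M) (hD : 0 < D) (m : ℕ) (j : Fin (N m)) (x x' : M) {r : ℝ}
    (hr : r < gp o x x') (h : r ∈ KK o A D y m j x) : r ∈ KK o A D y m j x' := by
  obtain ⟨h1, h2, h3⟩ := h
  refine ⟨col_agree hT o A hD x x' m hr h1, ?_, fun i hi => ?_⟩
  · have := gp_tree hT o x' (y m j) x
    rw [gp_comm o x' x] at this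
    exact lt_of_lt_of_le (lt_min hr h2) this
  · by_contra hcon
    push Not at hcon
    have := gp_tree hT o x (y m i) x'
    exact absurd (h3 i hi) (not_le.2 (lt_of_lt_of_le (lt_min hr hcon) this))

theorem KK_sep (hT : TL M) (m : ℕ) (j : Fin (N m)) (x x' : M) {r s : ℝ}
    (hr : gp o x x' ≤ r) (hs : gp o x x' ≤ s) (h : r ∈ KK o A D y m j x)
    (h' : s ∈ KK o A D y m j x') : False := by
  have h1 := gp_tree hT o x x' (y m j)
  rw [gp_comm o (y m j) x'] at h1
  have h2 := lt_min (lt_of_le_of_lt hr h.2.1) (lt_of_le_of_lt hs h'.2.1)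
  linarith

theorem KK_sub (m : ℕ) (j : Fin (N m)) (x : M) :
    KK o A D y m j x ⊆ Ico 0 (dist x o) := by
  rintro r ⟨⟨n, -, h1, h2, -⟩, -⟩
  exact ⟨(sg_nonneg o A D x n).trans h1, lt_of_lt_of_le h2 (sg_le o A D x (n + 1))⟩

theorem KK_disj (hD : 0 < D) (x : M) {m m' : ℕ} {j : Fin (N m)} {j' : Fin (N m')}
    (hne : (⟨m, j⟩ : Σ m, Fin (N m)) ≠ ⟨m', j'⟩) {r : ℝ} (h : r ∈ KK o A D y m j x)
    (h' : r ∈ KK o A D y m' j' x) : False := by
  obtain ⟨⟨n, hnm, h1, h2, h3, h4⟩, h5, h6⟩ := h
  obtain ⟨⟨n', hnm', h1', h2', h3', h4'⟩, h5', h6'⟩ := h'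
  have hmono := sg_mono o A hD x
  have hnn : n = n' := by
    rcases lt_trichotomy n n' with hlt | heq | hlt
    · exact absurd (hmono (show n + 1 ≤ n' from hlt)) (by linarith)
    · exact heq
    · exact absurd (hmono (show n' + 1 ≤ n from hlt)) (by linarith)
  subst hnn
  rcases lt_trichotomy m m' with hlt | heq | hlt
  · rcases h4' with h7 | h7
    · omega
    · have h8 : D / 2 ^ m' ≤ D / 2 ^ (m + 1) := anti hD hlt
      have h9 := half_pow (D := D) m
      linarith
  · subst heq
    rcases lt_trichotomy j j' with hj | hj | hj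
    · exact absurd (h6' j hj) (not_le.2 h5)
    · subst hj; exact hne rfl
    · exact absurd (h6 j' hj) (not_le.2 h5')
  · rcases h4 with h7 | h7
    · omega
    · have h8 : D / 2 ^ m ≤ D / 2 ^ (m' + 1) := anti hD hlt
      have h9 := half_pow (D := D) m'
      linarith

theorem KK_cover (hT : TL M) (hD : 0 < D)
    (hy : ∀ m, ∀ z ∈ A, ∃ j, dist z (y m j) < D / 2 ^ m) (x : M) {m : ℕ} {r : ℝ}
    (h : r ∈ Col D (sg o A D x) m) : ∃ j, r ∈ KK o A D y m j x := by
  classical
  have hc := h
  obtain ⟨n, hnm, h1, h2, -⟩ := h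
  obtain ⟨z, hz, h5, h6⟩ := sg_wit ((sg_nonneg o A D x n).trans h1) h2
  obtain ⟨j, hj⟩ := hy m z hz
  have h7 : r < gp o z (y m j) := by
    unfold gp
    have h8 := dist_triangle z (y m j) o
    have h9 : D / 2 ^ m ≤ D / 2 ^ n := anti hD hnm
    linarith
  have h10 : r < gp o x (y m j) := lt_of_lt_of_le (lt_min h5 h7) (gp_tree hT o x (y m j) z)
  let S : Finset (Fin (N m)) := Finset.univ.filter fun j => r < gp o x (y m j)
  have hS : S.Nonempty := ⟨j, by simp only [S, Finset.mem_filter, Finset.mem_univ, true_and]; exact h10⟩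
  refine ⟨S.min' hS, hc, ?_, fun i hi => ?_⟩
  · have := S.min'_mem hS
    simp only [S, Finset.mem_filter] at this
    exact this.2
  · by_contra hcon
    push Not at hcon
    have h11 : i ∈ S := by
      simp only [S, Finset.mem_filter, Finset.mem_univ, true_and]; exact hcon
    exact absurd (S.min'_le i h11) (not_le.2 hi)

theorem meas_Col (D : ℝ) (σ : ℕ → ℝ) (m : ℕ) : MeasurableSet (Col D σ m) := by
  have h : Col D σ m = ⋃ n ∈ Set.Iic m, {r | σ n ≤ r ∧ r < σ (n + 1) ∧ D / 2 ^ m ≤ r - pch D σ n ∧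
    (m = n ∨ r - pch D σ n < 2 * (D / 2 ^ m))} := by
    ext r
    simp only [Col, Set.mem_iUnion, Set.mem_Iic, Set.mem_ofPred_eq, exists_prop]
  rw [h]
  refine MeasurableSet.biUnion (Set.to_countable _) fun n _ => ?_
  refine (measurableSet_le measurable_const measurable_id).inter
    ((measurableSet_lt measurable_id measurable_const).inter
    ((measurableSet_le measurable_const (measurable_id.sub_const _)).inter
    (MeasurableSet.union (MeasurableSet.const _)
      (measurableSet_lt (measurable_id.sub_const _) measurable_const))))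

theorem meas_KK (m : ℕ) (j : Fin (N m)) (x : M) : MeasurableSet (KK o A D y m j x) := by
  refine (meas_Col D _ m).inter ((measurableSet_lt measurable_id measurable_const).inter ?_)
  have h : {r : ℝ | ∀ i < j, gp o x (y m i) ≤ r} = ⋂ i ∈ Set.Iio j, {r : ℝ | gp o x (y m i) ≤ r} := by
    ext r
    simp only [Set.mem_ofPred_eq, Set.mem_iInter, Set.mem_Iio]
  change MeasurableSet {r : ℝ | ∀ i < j, gp o x (y m i) ≤ r}
  rw [h]
  exact MeasurableSet.biInter (Set.to_countable _) fun i _ =>
    measurableSet_le measurable_const measurable_id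

end

end Pool.Agent.Helper84.TR
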